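import Pool.Agent.Work.MP_659252_gt.QR.D.DirF

/-!
# From great circles to lines: `F`.  Size: M-L.

PROOF.  `E = fld f w k b` is even, homogeneous of degree `0` (`gr_hom`), tangential, `E x = 0` if `f x ∉ [a, c]` (support of `b`), and `sg (ee 0) (dir ..) x = E x` for `x ≠ 0` (`sg_dir`).
(1) There are `R > 0` and a neighbourhood of `(P, v)` such that for `z` in it: `z.1 + τ z.2 ≠ 0` for all `τ`, and `f (z.1 + τ z.2) < lo` for `|τ| ≥ R`, `f (z.2) < lo`:
`f (z.1 + τ z.2) = f (τ⁻¹ z.1 + z.2)` and `f v < lo` (`feq`), continuity of `f` at `v`.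
(2) `Phi (sg (ee 0) (dir b)) z.1 z.2 = 2 ∫_{-π/2}^{π/2} bil (E c) c' c' ds`, `c = gc z.1 z.2 s`, `c' = gd z.1 z.2 s` (`2π`-periodic, and `s → s + π` does not change the integrand).
(3) For `|s| < π/2`, `τ = tan s`: `c = cos s (z.1 + τ z.2)`, `c' = -tan s c + (cos s)⁻¹ z.2`, so `bil (E c) c' c' = (cos s)⁻² bil (E (z.1 + τ z.2)) z.2 z.2` (`tan`, symmetry, degree `0`).  The
integrand vanishes for `|tan s| ≥ R` and at `±π/2`.  Substitution `τ = tan s` on `[-arctan R, arctan R]` (`intervalIntegral.integral_comp_mul_deriv`): the integral (2)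
is `2 ∫_{-R}^{R} bil (E (z.1 + τ z.2)) z.2 z.2 dτ`.
(4) With `c = z.1 + τ z.2`, `g = f c`, `g' = fderiv f c z.2 = gr f c ⬝ z.2`: `bil (E c) z.2 z.2 = b(g) bil (k c) z.2 z.2 + b'(g) w(c) g'²` and `b'(g) g' = (b ∘ g)'`, so integrating by parts on `[-R, R]`
(`b (g (±R)) = 0`): `∫ b'(g) w g'² = -∫ b(g) (w(c) g')'`, `(w(c) g')' = fderiv w c z.2 * g' + w(c) * fderiv (fun y => fderiv f y z.2) c z.2`.  Together
`(1/4) Phi = (1/2) ∫_{-R}^{R} b(g) Kq c z.2 dτ = Fz` (the integrand of `Fz` vanishes for `|τ| ≥ R`).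
-/

namespace Pool.Agent.Work.MP_659252_gt.QR

open scoped ContDiff Topology
open Pool.Agent.Work.MP_659252_gt.Z (V Ten val Tan InT IsZoll IsMetric IsGeodesic)

variable {d : ℕ}

private theorem lin_nhds (f w : V d → ℝ) (k : Ten d) (lo hi : ℝ) (P : V d) (L : Loc f w k lo hi P)
    (v : V d) (hv0 : v 0 = 0) (hv : v ≠ 0) :
    ∃ R : ℝ, 0 < R ∧ ∀ᶠ z : V d × V d in 𝓝 (P, v), z.2 ≠ 0 ∧ f z.2 < lo ∧
      (∀ τ : ℝ, z.1 + τ • z.2 ≠ 0) ∧ ∀ τ : ℝ, R ≤ |τ| → f (z.1 + τ • z.2) < lo := by
  have hfc : ContinuousAt f v := L.fs.continuousOn.continuousAt (isOpen_compl_singleton.mem_nhds hv)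
  have h1 : ∀ᶠ y in 𝓝 v, f y < lo ∧ y ≠ 0 :=
    (hfc.eventually_lt continuousAt_const (L.feq v hv hv0)).and (isOpen_ne.mem_nhds hv)
  obtain ⟨δ, hδ, h2⟩ := Metric.eventually_nhds_iff.1 h1
  have hP0 := L.P0
  set R : ℝ := 2 * (‖P‖ + 1) / δ + 1 with hR
  have hR0 : 0 < R := by positivity
  have hRδ : (‖P‖ + 1) / R < δ / 2 := by
    rw [div_lt_iff₀ hR0]
    have : δ / 2 * R = (‖P‖ + 1) + δ / 2 := by
      rw [hR]
      field_simp
    rw [this]
    linarith
  refine ⟨R, hR0, ?_⟩
  have n1 : ∀ᶠ z : V d × V d in 𝓝 (P, v), ‖z.1‖ < ‖P‖ + 1 := by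
    have : ContinuousAt (fun z : V d × V d => ‖z.1‖) (P, v) := by fun_prop
    exact this.eventually_lt continuousAt_const (by simp)
  have n2 : ∀ᶠ z : V d × V d in 𝓝 (P, v), ‖z.2 - v‖ < δ / 2 := by
    have : ContinuousAt (fun z : V d × V d => ‖z.2 - v‖) (P, v) := by fun_prop
    exact this.eventually_lt continuousAt_const (by simpa using hδ)
  have n3 : ∀ᶠ z : V d × V d in 𝓝 (P, v), P 0 / 2 < z.1 0 := by
    have : ContinuousAt (fun z : V d × V d => z.1 0) (P, v) := by fun_prop
    exact continuousAt_const.eventually_lt this (by simpa using hP0)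
  have n4 : ∀ᶠ z : V d × V d in 𝓝 (P, v), |z.2 0| < P 0 / (4 * R) := by
    have : ContinuousAt (fun z : V d × V d => |z.2 0|) (P, v) := by fun_prop
    refine this.eventually_lt continuousAt_const ?_
    simp only [hv0, abs_zero]
    positivity
  filter_upwards [n1, n2, n3, n4] with z e1 e2 e3 e4
  have q0 : f z.2 < lo ∧ z.2 ≠ 0 := h2 (by rw [dist_eq_norm]; linarith)
  have q1 : ∀ τ : ℝ, R ≤ |τ| → f (z.1 + τ • z.2) < lo ∧ z.1 + τ • z.2 ≠ 0 := by
    intro τ hτ
    have hτ0 : τ ≠ 0 := by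
      rintro rfl
      rw [abs_zero] at hτ
      linarith
    have e : τ⁻¹ • (z.1 + τ • z.2) = τ⁻¹ • z.1 + z.2 := by
      rw [smul_add, smul_smul, inv_mul_cancel₀ hτ0, one_smul]
    have h3 : ‖τ⁻¹ • z.1‖ < δ / 2 := by
      rw [norm_smul, norm_inv, Real.norm_eq_abs]
      refine lt_of_le_of_lt ?_ hRδ
      rw [inv_mul_eq_div]
      exact div_le_div₀ (by positivity) e1.le hR0 hτ
    have h4 : dist (τ⁻¹ • z.1 + z.2) v < δ := by
      rw [dist_eq_norm, add_sub_assoc]
      exact (norm_add_le _ _).trans_lt (by linarith)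
    have h5 := h2 h4
    rw [← e] at h5
    refine ⟨?_, ?_⟩
    · rw [← L.fh τ⁻¹ (z.1 + τ • z.2) (inv_ne_zero hτ0)]
      exact h5.1
    · intro h6
      rw [h6, smul_zero] at h5
      exact h5.2 rfl
  refine ⟨q0.2, q0.1, fun τ => ?_, fun τ hτ => (q1 τ hτ).1⟩
  rcases le_or_gt R |τ| with hτ | hτ
  · exact (q1 τ hτ).2
  · intro h6
    have h7 : z.1 0 + τ * z.2 0 = 0 := by
      have := congrFun h6 0
      simpa using this
    have h8 : |τ * z.2 0| ≤ P 0 / 4 := by
      rw [abs_mul]
      calc |τ| * |z.2 0| ≤ R * (P 0 / (4 * R)) :=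
            mul_le_mul hτ.le e4.le (abs_nonneg _) hR0.le
        _ = P 0 / 4 := by field_simp
    have h9 := (abs_le.1 h8).1
    linarith

private theorem bump_zero {lo hi : ℝ} {b : ℝ → ℝ} (hb : Bump lo hi b) {s : ℝ} (hs : s < lo) :
    b s = 0 ∧ deriv b s = 0 := by
  obtain ⟨hsm, a, c, ha, hc, hz⟩ := hb
  have h1 : ∀ t : ℝ, t < lo → b t = 0 := fun t ht => hz t fun h => by
    have := h.1
    linarith
  have h2 : b =ᶠ[𝓝 s] fun _ => 0 := by
    filter_upwards [Iio_mem_nhds hs] with t ht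
    exact h1 t ht
  refine ⟨h1 s hs, ?_⟩
  rw [h2.deriv_eq]
  simp

private theorem bil_fld (f w : V d → ℝ) (k : Ten d) (b : ℝ → ℝ) (x u : V d) :
    bil (fld f w k b x) u u = b (f x) * bil (k x) u u + deriv b (f x) * w x * (gr f x ⬝ᵥ u) ^ 2 := by
  have h1 : (gr f x ⬝ᵥ u) ^ 2 = ∑ i, ∑ j, (gr f x i * gr f x j) * (u i * u j) := by
    rw [pow_two, dotProduct, Finset.sum_mul_sum]
    exact Finset.sum_congr rfl fun i _ => Finset.sum_congr rfl fun j _ => by ring
  rw [h1]
  simp only [bil, fld, Finset.mul_sum, ← Finset.sum_add_distrib]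
  exact Finset.sum_congr rfl fun i _ => Finset.sum_congr rfl fun j _ => by ring

private theorem bil_fld_hom (f w : V d → ℝ) (k : Ten d) (lo hi : ℝ) (P : V d) (L : Loc f w k lo hi P)
    (b : ℝ → ℝ) (y : V d) (hy : y ≠ 0) (c : ℝ) (hc : c ≠ 0) (r : ℝ) (u : V d) :
    bil (fld f w k b (c • y)) (r • y + c⁻¹ • u) (r • y + c⁻¹ • u) = c⁻¹ ^ 2 * bil (fld f w k b y) u u := by
  rw [bil_fld, bil_fld, L.fh c y hc, L.ks.hom c y hc, L.wh c y hc, gr_hom f L.fs L.fh c hc y hy]
  have hsy := L.ks.symm y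
  have htan : ∀ q : V d, bil (k y) y q = 0 := fun q => L.ks.tan y q
  have htan' : ∀ q : V d, bil (k y) q y = 0 := fun q => by rw [bil_comm hsy]; exact htan q
  have e1 : bil (k y) (r • y + c⁻¹ • u) (r • y + c⁻¹ • u) = c⁻¹ ^ 2 * bil (k y) u u := by
    rw [bil_add_left, bil_smul_left, htan, bil_smul_left, bil_add_right, bil_smul_right, htan',
      bil_smul_right]
    ring
  have e2 : c⁻¹ • gr f y ⬝ᵥ (r • y + c⁻¹ • u) = c⁻¹ ^ 2 * (gr f y ⬝ᵥ u) := by
    rw [smul_dotProduct, dotProduct_add, dotProduct_smul, dotProduct_smul, gr_rad f L.fs L.fh y hy]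
    simp only [smul_eq_mul]
    ring
  rw [e1, e2]
  field_simp

private theorem gr_contOn (f : V d → ℝ) (fs : ContDiffOn ℝ ∞ f {0}ᶜ) :
    ContinuousOn (gr f) ({0}ᶜ : Set (V d)) := by
  refine continuousOn_pi.2 fun i => ?_
  exact (fs.continuousOn_fderiv_of_isOpen isOpen_compl_singleton (by simp)).clm_apply continuousOn_const

private theorem bil_cont {M : ℝ → Mat d} {v w : ℝ → V d} (hM : Continuous M) (hv : Continuous v)
    (hw : Continuous w) : Continuous fun s => bil (M s) (v s) (w s) := by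
  simp only [bil]
  refine continuous_finsetSum _ fun i _ => continuous_finsetSum _ fun j _ => ?_
  exact ((continuous_pi_iff.1 ((continuous_pi_iff.1 hM) i)) j).mul
    (((continuous_apply i).comp hv).mul ((continuous_apply j).comp hw))

private theorem fld_cont (f w : V d → ℝ) (k : Ten d) (lo hi : ℝ) (P : V d) (L : Loc f w k lo hi P)
    (b : ℝ → ℝ) (hb : ContDiff ℝ ∞ b) (c u : ℝ → V d) (hc : Continuous c) (hu : Continuous u)
    (hc0 : ∀ s, c s ≠ 0) : Continuous fun s => bil (fld f w k b (c s)) (u s) (u s) := by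
  simp only [bil_fld]
  have h1 : Continuous fun s => f (c s) := L.fs.continuousOn.comp_continuous hc hc0
  have h2 : Continuous fun s => w (c s) := L.ws.continuousOn.comp_continuous hc hc0
  have h3 : Continuous fun s => k (c s) := L.ks.smooth.continuousOn.comp_continuous hc hc0
  have h4 : Continuous fun s => gr f (c s) := (gr_contOn f L.fs).comp_continuous hc hc0
  have h5 : Continuous (deriv b) := hb.continuous_deriv (by simp)
  have h6 : Continuous fun s => gr f (c s) ⬝ᵥ u s := by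
    simp only [dotProduct]
    refine continuous_finsetSum _ fun i _ => ?_
    exact ((continuous_apply i).comp h4).mul ((continuous_apply i).comp hu)
  exact ((hb.continuous.comp h1).mul (bil_cont h3 hu hu)).add (((h5.comp h1).mul h2).mul (h6.pow 2))

theorem linA (f w : V d → ℝ) (k : Ten d) (lo hi : ℝ) (P : V d) (L : Loc f w k lo hi P) (b : ℝ → ℝ)
    (hb : Bump lo hi b) (v : V d) (hv0 : v 0 = 0) (hv : v ≠ 0) :
    ∀ᶠ z in 𝓝 (P, v), (1 / 4) * Phi (sg (ee 0) (dir f w k b)) z.1 z.2 = Fz f (Kq f w k) b z := by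
  obtain ⟨R, hR, hN⟩ := lin_nhds f w k lo hi P L v hv0 hv
  filter_upwards [hN] with z hz
  obtain ⟨z2, z3, z4, z5⟩ := hz
  have hbs : ContDiff ℝ ∞ b := hb.1
  -- the curve
  set c : ℝ → V d := gc z.1 z.2 with hcd
  set c' : ℝ → V d := gd z.1 z.2 with hcd'
  set l : ℝ → V d := fun τ => z.1 + τ • z.2 with hl
  have hcl : ∀ s, Real.cos s ≠ 0 → c s = Real.cos s • l (Real.tan s) := by
    intro s hs
    rw [hcd, gc, hl]
    simp only [smul_add, smul_smul, Real.tan_eq_sin_div_cos]
    rw [mul_div_cancel₀ _ hs]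
  have hcl' : ∀ s, Real.cos s ≠ 0 → c' s = (-Real.sin s) • l (Real.tan s) + (Real.cos s)⁻¹ • z.2 := by
    intro s hs
    have h1 : Real.cos s = -(Real.sin s * Real.tan s) + (Real.cos s)⁻¹ := by
      rw [Real.tan_eq_sin_div_cos]
      field_simp
      nlinarith [Real.sin_sq_add_cos_sq s]
    have h2 : c' s = (-(Real.sin s * Real.tan s) + (Real.cos s)⁻¹) • z.2 - Real.sin s • z.1 := by
      rw [← h1]
      rfl
    rw [h2, hl]
    funext i
    simp only [Pi.sub_apply, Pi.add_apply, Pi.smul_apply, smul_eq_mul]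
    ring
  have hc0' : ∀ s, Real.cos s = 0 → ∃ e : ℝ, e ≠ 0 ∧ c s = e • z.2 := by
    intro s hs
    refine ⟨Real.sin s, ?_, ?_⟩
    · intro h
      have := Real.sin_sq_add_cos_sq s
      rw [h, hs] at this
      norm_num at this
    · rw [hcd, gc, hs, zero_smul, zero_add]
  have hc0 : ∀ s, c s ≠ 0 := by
    intro s
    by_cases hs : Real.cos s = 0
    · obtain ⟨e, he, h1⟩ := hc0' s hs
      rw [h1]
      exact smul_ne_zero he z2
    · rw [hcl s hs]
      exact smul_ne_zero hs (z4 _)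
  have cc : Continuous c := continuous_iff_continuousAt.2 fun s => (hasDerivAt_gc _ _ s).continuousAt
  have cc' : Continuous c' := continuous_iff_continuousAt.2 fun s => (hasDerivAt_gd _ _ s).continuousAt
  set g : ℝ → ℝ := fun s => bil (fld f w k b (c s)) (c' s) (c' s) with hg
  set h : ℝ → ℝ := fun τ => bil (fld f w k b (l τ)) z.2 z.2 with hh
  have hgc : Continuous g := fld_cont f w k lo hi P L b hbs c c' cc cc' hc0
  have hlc : Continuous l := by
    rw [hl]
    fun_prop
  have hhc : Continuous h := fld_cont f w k lo hi P L b hbs l (fun _ => z.2) hlc continuous_const z4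
  have e1 : Phi (sg (ee 0) (dir f w k b)) z.1 z.2 = ∫ s in (0 : ℝ)..(2 * Real.pi), g s := by
    refine intervalIntegral.integral_congr fun s _ => ?_
    rw [hg]
    simp only
    rw [← sg_dir f w k lo hi P L b hb (c s) (hc0 s)]
  have hper : Function.Periodic g Real.pi := by
    intro s
    have h1 : c (s + Real.pi) = (-1 : ℝ) • c s := by
      simp only [hcd, gc, Real.cos_add_pi, Real.sin_add_pi]
      funext i
      simp only [Pi.add_apply, Pi.smul_apply, smul_eq_mul]
      ring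
    have h2 : c' (s + Real.pi) = (0 : ℝ) • c s + (-1 : ℝ)⁻¹ • c' s := by
      simp only [hcd', gd, Real.cos_add_pi, Real.sin_add_pi]
      funext i
      simp only [Pi.add_apply, Pi.sub_apply, Pi.smul_apply, smul_eq_mul]
      ring
    rw [hg]
    simp only
    rw [h1, h2, bil_fld_hom f w k lo hi P L b (c s) (hc0 s) (-1) (by norm_num)]
    norm_num
  have e2 : ∫ s in (0 : ℝ)..(2 * Real.pi), g s = 2 * ∫ s in (-(Real.pi / 2))..(Real.pi / 2), g s := by
    have h1 := hper.intervalIntegral_add_zsmul_eq 2 0 (fun t₁ t₂ => hgc.intervalIntegrable _ _)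
    have h2 := hper.intervalIntegral_add_eq 0 (-(Real.pi / 2))
    have h3 : -(Real.pi / 2) + Real.pi = Real.pi / 2 := by ring
    rw [h3] at h2
    rw [h2] at h1
    simpa using h1
  have hzero : ∀ x : V d, f x < lo → ∀ u, bil (fld f w k b x) u u = 0 := by
    intro x hx u
    rw [bil_fld, (bump_zero hb hx).1, (bump_zero hb hx).2]
    ring
  set a : ℝ := Real.arctan R with ha
  have hta : Real.tan a = R := Real.tan_arctan R
  have ha1 : a < Real.pi / 2 := Real.arctan_lt_pi_div_two R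
  have ha0 : 0 < a := Real.arctan_pos.2 hR
  have hgz : ∀ s : ℝ, a ≤ |s| → |s| ≤ Real.pi / 2 → g s = 0 := by
    intro s h1 h2
    refine hzero _ ?_ _
    by_cases hs : Real.cos s = 0
    · obtain ⟨e, he, h3⟩ := hc0' s hs
      rw [h3, L.fh e z.2 he]
      exact z3
    · rw [hcl s hs, L.fh _ _ hs]
      refine z5 _ ?_
      have h3 : |s| ≠ Real.pi / 2 := by
        intro h4
        refine hs ?_
        rw [← Real.cos_abs, h4, Real.cos_pi_div_two]
      have h4 : |s| < Real.pi / 2 := lt_of_le_of_ne h2 h3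
      have h5 : R ≤ Real.tan |s| := by
        rw [← hta]
        rcases h1.eq_or_lt with h6 | h6
        · rw [h6]
        · exact (Real.tan_lt_tan_of_nonneg_of_lt_pi_div_two ha0.le h4 h6).le
      rcases abs_cases s with h6 | h6
      · rw [h6.1] at h5
        exact h5.trans (le_abs_self _)
      · rw [h6.1, Real.tan_neg] at h5
        exact h5.trans (neg_le_abs _)
  have e3 : ∫ s in (-(Real.pi / 2))..(Real.pi / 2), g s = ∫ s in (-a)..a, g s := by
    have i : ∀ x y : ℝ, IntervalIntegrable g MeasureTheory.volume x y := fun x y =>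
      hgc.intervalIntegrable _ _
    rw [← intervalIntegral.integral_add_adjacent_intervals (i (-(Real.pi / 2)) (-a)) (i (-a) (Real.pi / 2)),
      ← intervalIntegral.integral_add_adjacent_intervals (i (-a) a) (i a (Real.pi / 2))]
    have h1 : ∫ s in (-(Real.pi / 2))..(-a), g s = 0 := by
      rw [intervalIntegral.integral_congr (g := fun _ => (0 : ℝ))]
      · simp
      · intro s hs
        rw [Set.uIcc_of_le (by linarith)] at hs
        have h2 : |s| = -s := abs_of_nonpos (by linarith [hs.2])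
        exact hgz s (by rw [h2]; linarith [hs.2]) (by rw [h2]; linarith [hs.1])
    have h2 : ∫ s in a..(Real.pi / 2), g s = 0 := by
      rw [intervalIntegral.integral_congr (g := fun _ => (0 : ℝ))]
      · simp
      · intro s hs
        rw [Set.uIcc_of_le ha1.le] at hs
        have h2 : |s| = s := abs_of_nonneg (by linarith [hs.1])
        exact hgz s (by rw [h2]; linarith [hs.1]) (by rw [h2]; linarith [hs.2])
    rw [h1, h2, zero_add, add_zero]
  have hcos : ∀ s ∈ Set.uIcc (-a) a, 0 < Real.cos s := by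
    intro s hs
    rw [Set.uIcc_of_le (by linarith)] at hs
    exact Real.cos_pos_of_mem_Ioo ⟨by linarith [hs.1], by linarith [hs.2]⟩
  have e4 : ∫ s in (-a)..a, g s = ∫ τ in (-R)..R, h τ := by
    have h1 := intervalIntegral.integral_comp_mul_deriv (f := Real.tan) (f' := fun s => 1 / Real.cos s ^ 2)
      (g := h) (a := -a) (b := a) (fun s hs => Real.hasDerivAt_tan (hcos s hs).ne')
      (ContinuousOn.div continuousOn_const (Real.continuous_cos.continuousOn.pow 2)
        fun s hs => (pow_pos (hcos s hs) 2).ne') hhc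
    rw [Real.tan_neg, hta] at h1
    rw [← h1]
    refine intervalIntegral.integral_congr fun s hs => ?_
    have hs' := (hcos s hs).ne'
    rw [hg]
    simp only [Function.comp_apply]
    rw [hcl s hs', hcl' s hs', bil_fld_hom f w k lo hi P L b _ (z4 _) _ hs']
    rw [hh]
    simp only
    rw [one_div, inv_pow, mul_comm]
  -- integration by parts
  set F : ℝ → ℝ := fun τ => f (l τ) with hF
  have hld : ∀ τ, HasDerivAt l z.2 τ := by
    intro τ
    have := ((hasDerivAt_id τ).smul_const z.2).const_add z.1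
    rw [one_smul] at this
    exact this
  have hfd : ∀ τ, HasFDerivAt f (fderiv ℝ f (l τ)) (l τ) := fun τ =>
    ((L.fs.contDiffAt (isOpen_compl_singleton.mem_nhds (z4 τ))).differentiableAt (by simp)).hasFDerivAt
  have hwd : ∀ τ, HasFDerivAt w (fderiv ℝ w (l τ)) (l τ) := fun τ =>
    ((L.ws.contDiffAt (isOpen_compl_singleton.mem_nhds (z4 τ))).differentiableAt (by simp)).hasFDerivAt
  have hfs1 : ContDiffOn ℝ ∞ (fun y => fderiv ℝ f y z.2) ({0}ᶜ : Set (V d)) :=
    (L.fs.fderiv_of_isOpen isOpen_compl_singleton (by simp)).clm_apply contDiffOn_const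
  have hffd : ∀ τ, HasFDerivAt (fun y => fderiv ℝ f y z.2) (fderiv ℝ (fun y => fderiv ℝ f y z.2) (l τ)) (l τ) :=
    fun τ => ((hfs1.contDiffAt (isOpen_compl_singleton.mem_nhds (z4 τ))).differentiableAt
      (by simp)).hasFDerivAt
  have hbd : ∀ r, HasDerivAt b (deriv b r) r := fun r => (hbs.differentiable (by simp) r).hasDerivAt
  set Q : ℝ → ℝ := fun τ => b (f (l τ)) * (w (l τ) * fderiv ℝ f (l τ) z.2) with hQ
  set q : ℝ → ℝ := fun τ => deriv b (f (l τ)) * fderiv ℝ f (l τ) z.2 * (w (l τ) * fderiv ℝ f (l τ) z.2) +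
    b (f (l τ)) * (fderiv ℝ w (l τ) z.2 * fderiv ℝ f (l τ) z.2 +
      w (l τ) * fderiv ℝ (fun y => fderiv ℝ f y z.2) (l τ) z.2) with hq
  have hQd : ∀ τ, HasDerivAt Q (q τ) τ := by
    intro τ
    have h1 := (hfd τ).comp_hasDerivAt τ (hld τ)
    have h2 := (hwd τ).comp_hasDerivAt τ (hld τ)
    have h3 := (hffd τ).comp_hasDerivAt τ (hld τ)
    have h4 := (hbd (f (l τ))).comp τ h1
    exact h4.mul (h2.mul h3)
  have kf : Continuous fun τ => f (l τ) := L.fs.continuousOn.comp_continuous hlc z4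
  have kw : Continuous fun τ => w (l τ) := L.ws.continuousOn.comp_continuous hlc z4
  have kk : Continuous fun τ => k (l τ) := L.ks.smooth.continuousOn.comp_continuous hlc z4
  have kf1 : Continuous fun τ => fderiv ℝ f (l τ) z.2 := hfs1.continuousOn.comp_continuous hlc z4
  have kw1 : Continuous fun τ => fderiv ℝ w (l τ) z.2 :=
    ((L.ws.continuousOn_fderiv_of_isOpen isOpen_compl_singleton (by simp)).clm_apply
      continuousOn_const).comp_continuous hlc z4
  have kf2 : Continuous fun τ => fderiv ℝ (fun y => fderiv ℝ f y z.2) (l τ) z.2 :=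
    ((hfs1.continuousOn_fderiv_of_isOpen isOpen_compl_singleton (by simp)).clm_apply
      continuousOn_const).comp_continuous hlc z4
  have kb1 : Continuous (deriv b) := hbs.continuous_deriv (by simp)
  have kq : Continuous q :=
    (((kb1.comp kf).mul kf1).mul (kw.mul kf1)).add
      ((hbs.continuous.comp kf).mul ((kw1.mul kf1).add (kw.mul kf2)))
  have e5 : ∫ τ in (-R)..R, q τ = 0 := by
    rw [intervalIntegral.integral_eq_sub_of_hasDerivAt (fun τ _ => hQd τ) (kq.intervalIntegrable _ _)]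
    have h1 : b (f (l R)) = 0 := (bump_zero hb (z5 R (le_abs_self R))).1
    have h2 : b (f (l (-R))) = 0 := (bump_zero hb (z5 (-R) (by rw [abs_neg]; exact le_abs_self R))).1
    simp only [hQ, h1, h2]
    ring
  set K : ℝ → ℝ := fun τ => b (f (l τ)) * Kq f w k (l τ) z.2 with hK
  have kK : Continuous K := by
    refine (hbs.continuous.comp kf).mul ?_
    exact ((bil_cont kk continuous_const continuous_const).sub (kw.mul kf2)).sub (kw1.mul kf1)
  have e6 : ∫ τ in (-R)..R, h τ = ∫ τ in (-R)..R, K τ := by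
    have h1 : ∀ τ, h τ = K τ + q τ := by
      intro τ
      simp only [hh, hK, hq, bil_fld, Kq, ← fderiv_eq_gr]
      ring
    simp only [h1]
    rw [intervalIntegral.integral_add (kK.intervalIntegrable _ _) (kq.intervalIntegrable _ _), e5,
      add_zero]
  have e7 : ∫ τ in (-R)..R, K τ = ∫ τ : ℝ, K τ := by
    refine intervalIntegral.integral_eq_integral_of_support_subset fun τ hτ => ?_
    by_contra h1
    refine hτ ?_
    have h2 : R ≤ |τ| := by
      by_contra h3
      push Not at h3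
      have h4 := abs_lt.1 h3
      exact h1 ⟨h4.1, h4.2.le⟩
    have h3 : b (f (l τ)) = 0 := (bump_zero hb (z5 τ h2)).1
    simp only [hK, h3, zero_mul]
  rw [e1, e2, e3, e4, e6, e7]
  simp only [Fz, hK, hl]
  ring

end Pool.Agent.Work.MP_659252_gt.QR
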