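import Pool.Agent.Work.MP_659252_gt.QR.D.DirF

/-!
# From great circles to lines: `Ps`.  Size: M-L.  (Parallel to `D/LinA`; see its proof for (1)-(4).)

Here `b` is supported in `[a, c]`, `lo < a`, `c < f P`, and `N = NN P v`: `P ⬝ N = 0`, `v ⬝ N > 0`.
PROOF.  `sg N (dir b) x = sign (x ⬝ N) sign (x 0) E x`, `E = fld f w k b` (if `x 0 = 0`, `x ≠ 0` both are `0`); this field is even.  For `z` near `(P, v)`:
`0 < z.1 0`; there is `r > 0` with `f (z.1 + τ z.2) > c` for `|τ| ≤ r` (near `(P, v)`: `f P > c`), so `E = 0` there; for `|τ| ≥ r`, `|τ| ≤ R`: `(z.1 + τ z.2) ⬝ N` has the sign of `τ`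
(at `(P, v)` it is `τ (v ⬝ N)`) and `(z.1 + τ z.2) 0 > 0` (at `(P, v)` it is `P 0`); for `|τ| ≥ R` `E = 0`.  So as in `LinA` (2), (3) (on `-π/2 < s < π/2` we have `c = cos s (z.1 + τ z.2)` with
`cos s > 0`): `Phi (sg N (dir b)) z.1 z.2 = 2 ∫_{-R}^{R} sign τ bil (E (z.1 + τ z.2)) z.2 z.2 dτ`, and integration by parts on `[0, R]` and on `[-R, 0]` (`b (g 0) = b (f z.1) = 0`,
`b (g (±R)) = 0`) gives `(1/4) Phi = (1/2) ∫ sign τ b(g) Kq c z.2 dτ = Ps`.
-/

namespace Pool.Agent.Work.MP_659252_gt.QR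

open scoped ContDiff Topology
open Pool.Agent.Work.MP_659252_gt.Z (V Ten val Tan InT IsZoll IsMetric IsGeodesic)

variable {d : ℕ}

private theorem lb_sign {c y : ℝ} (hc : 0 < c) : Real.sign (c * y) = Real.sign y := by
  rcases lt_trichotomy y 0 with h | h | h
  · rw [Real.sign_of_neg h, Real.sign_of_neg (mul_neg_of_pos_of_neg hc h)]
  · rw [h, mul_zero]
  · rw [Real.sign_of_pos h, Real.sign_of_pos (mul_pos hc h)]

private theorem lb_scale (f w : V d → ℝ) (k : Ten d) (lo hi : ℝ) (P : V d) (L : Loc f w k lo hi P)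
    (b : ℝ → ℝ) (N : V d) (c : ℝ) (hc : 0 < c) (x : V d) (hx : x ≠ 0) :
    sg N (dir f w k b) (c • x) =
      fun i j => Real.sign (x ⬝ᵥ N) * Real.sign (x 0) * fld f w k b x i j := by
  funext i j
  have h1 : (c • x) ⬝ᵥ N = c * (x ⬝ᵥ N) := by rw [smul_dotProduct, smul_eq_mul]
  have h2 : (c • x) 0 = c * x 0 := rfl
  simp only [sg, dir, fld]
  rw [h1, h2, lb_sign hc, lb_sign hc, L.fh c x hc.ne', L.ks.hom c x hc.ne', L.wh c x hc.ne',
    gr_hom f L.fs L.fh c hc.ne' x hx]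
  simp only [Pi.smul_apply, smul_eq_mul]
  have h3 : c ^ 2 * w x * (c⁻¹ * gr f x i * (c⁻¹ * gr f x j)) = w x * (gr f x i * gr f x j) := by
    field_simp
  calc Real.sign (x ⬝ᵥ N) * (Real.sign (x 0) * (b (f x) * k x i j +
        deriv b (f x) * (c ^ 2 * w x) * (c⁻¹ * gr f x i * (c⁻¹ * gr f x j))))
      = Real.sign (x ⬝ᵥ N) * (Real.sign (x 0) * (b (f x) * k x i j +
        deriv b (f x) * (c ^ 2 * w x * (c⁻¹ * gr f x i * (c⁻¹ * gr f x j))))) := by ring
    _ = Real.sign (x ⬝ᵥ N) * Real.sign (x 0) * (b (f x) * k x i j +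
        deriv b (f x) * w x * (gr f x i * gr f x j)) := by rw [h3]; ring

private theorem lb_rank (g u v : V d) :
    bil (fun i j => g i * g j) u v = (g ⬝ᵥ u) * (g ⬝ᵥ v) := by
  simp only [bil, dotProduct, Finset.sum_mul_sum]
  exact Finset.sum_congr rfl fun i _ => Finset.sum_congr rfl fun j _ => by ring

private theorem lb_bil (f w : V d → ℝ) (k : Ten d) (b : ℝ → ℝ) (x u v : V d) :
    bil (fld f w k b x) u v = b (f x) * bil (k x) u v +
      deriv b (f x) * w x * ((gr f x ⬝ᵥ u) * (gr f x ⬝ᵥ v)) := by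
  rw [← lb_rank, ← bil_smul_mat, ← bil_smul_mat, ← bil_add_mat]
  rfl

private theorem lb_comb (f w : V d → ℝ) (k : Ten d) (lo hi : ℝ) (P : V d) (L : Loc f w k lo hi P)
    (b : ℝ → ℝ) (x W : V d) (hx : x ≠ 0) (α β : ℝ) :
    bil (fld f w k b x) (α • x + β • W) (α • x + β • W) = β ^ 2 * bil (fld f w k b x) W W := by
  have hk : ∀ u, bil (k x) x u = 0 := fun u => L.ks.tan x u
  have hk' : ∀ u, bil (k x) u x = 0 := fun u => by
    rw [bil_comm (L.ks.symm x)]
    exact hk u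
  have hg := gr_rad f L.fs L.fh x hx
  rw [lb_bil, lb_bil]
  simp only [bil_add_left, bil_add_right, bil_smul_left, bil_smul_right, hk, hk', dotProduct_add,
    dotProduct_smul, hg, smul_eq_mul]
  ring

private theorem lb_gc (X W : V d) (s : ℝ) (hs : Real.cos s ≠ 0) :
    gc X W s = Real.cos s • (X + Real.tan s • W) := by
  rw [gc, smul_add, smul_smul, Real.tan_eq_sin_div_cos, mul_div_cancel₀ _ hs]

private theorem lb_gd (X W : V d) (s : ℝ) (hs : Real.cos s ≠ 0) :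
    gd X W s = (-Real.sin s) • (X + Real.tan s • W) + (Real.cos s)⁻¹ • W := by
  have e : (Real.cos s)⁻¹ = Real.cos s + Real.sin s * (Real.sin s / Real.cos s) := by
    have := Real.sin_sq_add_cos_sq s
    field_simp
    linarith
  rw [e, Real.tan_eq_sin_div_cos]
  funext i
  simp only [gd, Pi.sub_apply, Pi.add_apply, Pi.smul_apply, smul_eq_mul]
  ring

/-- a continuous function which vanishes near `0`, times the sign -/
private theorem lb_cont (h : ℝ → ℝ) (hc : Continuous h) (r : ℝ) (hr : 0 < r)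
    (h0 : ∀ τ : ℝ, |τ| ≤ r → h τ = 0) : Continuous (fun τ => Real.sign τ * h τ) := by
  rw [continuous_iff_continuousAt]
  intro τ
  rcases lt_trichotomy τ 0 with ht | ht | ht
  · have e : (fun τ => Real.sign τ * h τ) =ᶠ[𝓝 τ] fun τ => (-1) * h τ := by
      filter_upwards [isOpen_Iio.mem_nhds ht] with t ht'
      rw [Real.sign_of_neg ht']
    exact (continuousAt_const.mul hc.continuousAt).congr e.symm
  · have e : (fun τ => Real.sign τ * h τ) =ᶠ[𝓝 τ] fun _ => (0 : ℝ) := by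
      have hm : Metric.ball (0 : ℝ) r ∈ 𝓝 τ := by
        rw [ht]
        exact Metric.ball_mem_nhds _ hr
      filter_upwards [hm] with t ht'
      rw [mem_ball_zero_iff, Real.norm_eq_abs] at ht'
      rw [h0 t ht'.le, mul_zero]
    exact continuousAt_const.congr e.symm
  · have e : (fun τ => Real.sign τ * h τ) =ᶠ[𝓝 τ] fun τ => 1 * h τ := by
      filter_upwards [isOpen_Ioi.mem_nhds ht] with t ht'
      rw [Real.sign_of_pos ht']
    exact (continuousAt_const.mul hc.continuousAt).congr e.symm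

private theorem lb_int (h : ℝ → ℝ) (hc : Continuous h) (r R : ℝ) (hr : 0 < r)
    (h0 : ∀ τ : ℝ, |τ| ≤ r → h τ = 0) (h1 : ∀ τ : ℝ, R ≤ |τ| → h τ = 0) :
    MeasureTheory.Integrable (fun τ => Real.sign τ * h τ) := by
  refine (lb_cont h hc r hr h0).integrable_of_hasCompactSupport ?_
  refine HasCompactSupport.intro (isCompact_Icc (a := -R) (b := R)) fun τ hτ => ?_
  have : R ≤ |τ| := by
    by_contra hlt
    rw [not_le] at hlt
    exact hτ ⟨(abs_lt.1 hlt).1.le, (abs_lt.1 hlt).2.le⟩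
  rw [h1 τ this, mul_zero]

/-- the derivative of the sign times a function which vanishes near `0` -/
private theorem lb_der (h h' : ℝ → ℝ) (hd : ∀ τ, HasDerivAt h (h' τ) τ) (r : ℝ) (hr : 0 < r)
    (h0 : ∀ τ : ℝ, |τ| ≤ r → h τ = 0) (τ : ℝ) :
    HasDerivAt (fun τ => Real.sign τ * h τ) (Real.sign τ * h' τ) τ := by
  rcases lt_trichotomy τ 0 with ht | ht | ht
  · have e : (fun τ => Real.sign τ * h τ) =ᶠ[𝓝 τ] fun τ => (-1) * h τ := by
      filter_upwards [isOpen_Iio.mem_nhds ht] with t ht'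
      rw [Real.sign_of_neg ht']
    rw [Real.sign_of_neg ht]
    exact ((hd τ).const_mul (-1)).congr_of_eventuallyEq e
  · have e : (fun τ => Real.sign τ * h τ) =ᶠ[𝓝 τ] fun _ => (0 : ℝ) := by
      have hm : Metric.ball (0 : ℝ) r ∈ 𝓝 τ := by
        rw [ht]
        exact Metric.ball_mem_nhds _ hr
      filter_upwards [hm] with t ht'
      rw [mem_ball_zero_iff, Real.norm_eq_abs] at ht'
      rw [h0 t ht'.le, mul_zero]
    rw [ht, Real.sign_zero, zero_mul]
    rw [ht] at e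
    exact (hasDerivAt_const (0 : ℝ) (0 : ℝ)).congr_of_eventuallyEq e
  · have e : (fun τ => Real.sign τ * h τ) =ᶠ[𝓝 τ] fun τ => 1 * h τ := by
      filter_upwards [isOpen_Ioi.mem_nhds ht] with t ht'
      rw [Real.sign_of_pos ht']
    rw [Real.sign_of_pos ht]
    exact ((hd τ).const_mul 1).congr_of_eventuallyEq e

private theorem lb_bump (b : ℝ → ℝ) (a c : ℝ) (hz : ∀ s, s ∉ Set.Icc a c → b s = 0) (s : ℝ)
    (hs : s ∉ Set.Icc a c) : deriv b s = 0 := by
  have e : b =ᶠ[𝓝 s] fun _ => (0 : ℝ) := by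
    filter_upwards [isClosed_Icc.isOpen_compl.mem_nhds hs] with t ht
    exact hz t ht
  rw [e.deriv_eq]
  simp

/-- the integral over the line, before the integration by parts -/
private theorem lb_line (f w : V d → ℝ) (k : Ten d) (lo hi : ℝ) (P : V d) (L : Loc f w k lo hi P)
    (b : ℝ → ℝ) (hb : ContDiff ℝ ∞ b) (a c : ℝ) (hz : ∀ s, s ∉ Set.Icc a c → b s = 0)
    (X W : V d) (hne : ∀ τ : ℝ, X + τ • W ≠ 0) (r R : ℝ) (hr0 : 0 < r)
    (hR : ∀ τ : ℝ, R ≤ |τ| → f (X + τ • W) < a) (hr : ∀ τ : ℝ, |τ| ≤ r → c < f (X + τ • W)) :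
    MeasureTheory.Integrable (fun τ => Real.sign τ * bil (fld f w k b (X + τ • W)) W W) ∧
    (1 / 2) * ∫ τ : ℝ, Real.sign τ * bil (fld f w k b (X + τ • W)) W W =
      Ps f (Kq f w k) b (X, W) := by
  have hopen : IsOpen ({0}ᶜ : Set (V d)) := isOpen_compl_singleton
  have hx : ∀ τ : ℝ, X + τ • W ∈ ({0}ᶜ : Set (V d)) := fun τ => hne τ
  have hxc : Continuous fun τ : ℝ => X + τ • W := by fun_prop
  have hxd : ∀ τ : ℝ, HasDerivAt (fun τ : ℝ => X + τ • W) W τ := fun τ => by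
    have h5 := ((hasDerivAt_id τ).smul_const W).const_add X
    rw [one_smul] at h5
    exact h5
  have hb0 : ∀ s, s ∉ Set.Icc a c → b s = 0 ∧ deriv b s = 0 := fun s hs =>
    ⟨hz s hs, lb_bump b a c hz s hs⟩
  have hsm : ∀ τ : ℝ, |τ| ≤ r → b (f (X + τ • W)) = 0 ∧ deriv b (f (X + τ • W)) = 0 :=
    fun τ hτ => hb0 _ fun hm => absurd (hr τ hτ) (not_lt.2 hm.2)
  have hla : ∀ τ : ℝ, R ≤ |τ| → b (f (X + τ • W)) = 0 ∧ deriv b (f (X + τ • W)) = 0 :=
    fun τ hτ => hb0 _ fun hm => absurd (hR τ hτ) (not_lt.2 hm.1)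
  have hbd : ∀ s, DifferentiableAt ℝ b s := fun s => hb.contDiffAt.differentiableAt (by simp)
  have hfd : ∀ τ : ℝ, DifferentiableAt ℝ f (X + τ • W) := fun τ =>
    (L.fs.contDiffAt (hopen.mem_nhds (hx τ))).differentiableAt (by simp)
  have hwd : ∀ τ : ℝ, DifferentiableAt ℝ w (X + τ • W) := fun τ =>
    (L.ws.contDiffAt (hopen.mem_nhds (hx τ))).differentiableAt (by simp)
  have hfW : ContDiffOn ℝ ∞ (fun y => fderiv ℝ f y W) ({0}ᶜ : Set (V d)) :=
    (L.fs.fderiv_of_isOpen hopen (by simp)).clm_apply contDiffOn_const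
  have hfWd : ∀ τ : ℝ, DifferentiableAt ℝ (fun y => fderiv ℝ f y W) (X + τ • W) := fun τ =>
    (hfW.contDiffAt (hopen.mem_nhds (hx τ))).differentiableAt (by simp)
  -- the functions on the line
  set g : ℝ → ℝ := fun τ => f (X + τ • W) with hg
  set g' : ℝ → ℝ := fun τ => fderiv ℝ f (X + τ • W) W with hg'
  set W0 : ℝ → ℝ := fun τ => w (X + τ • W) with hW0
  set W1 : ℝ → ℝ := fun τ => fderiv ℝ w (X + τ • W) W with hW1
  set g2 : ℝ → ℝ := fun τ => fderiv ℝ (fun y => fderiv ℝ f y W) (X + τ • W) W with hg2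
  set K0 : ℝ → ℝ := fun τ => bil (k (X + τ • W)) W W with hK0
  have dg : ∀ τ, HasDerivAt g (g' τ) τ := fun τ => (hfd τ).hasFDerivAt.comp_hasDerivAt τ (hxd τ)
  have dW : ∀ τ, HasDerivAt W0 (W1 τ) τ := fun τ => (hwd τ).hasFDerivAt.comp_hasDerivAt τ (hxd τ)
  have dg' : ∀ τ, HasDerivAt g' (g2 τ) τ := fun τ =>
    HasFDerivAt.comp_hasDerivAt (l := fun y => fderiv ℝ f y W) τ (hfWd τ).hasFDerivAt (hxd τ)
  have cg : Continuous g := L.fs.continuousOn.comp_continuous hxc hx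
  have cg' : Continuous g' := hfW.continuousOn.comp_continuous hxc hx
  have cW0 : Continuous W0 := L.ws.continuousOn.comp_continuous hxc hx
  have cW1 : Continuous W1 := by
    have h5 : ContDiffOn ℝ ∞ (fun y => fderiv ℝ w y W) ({0}ᶜ : Set (V d)) :=
      (L.ws.fderiv_of_isOpen hopen (by simp)).clm_apply contDiffOn_const
    exact h5.continuousOn.comp_continuous hxc hx
  have cg2 : Continuous g2 := by
    have h5 : ContDiffOn ℝ ∞ (fun y => fderiv ℝ (fun y => fderiv ℝ f y W) y W) ({0}ᶜ : Set (V d)) :=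
      (hfW.fderiv_of_isOpen hopen (by simp)).clm_apply contDiffOn_const
    exact h5.continuousOn.comp_continuous hxc hx
  have cK0 : Continuous K0 := by
    have h5 : Continuous fun τ : ℝ => k (X + τ • W) := L.ks.smooth.continuousOn.comp_continuous hxc hx
    simp only [hK0, bil]
    refine continuous_finsetSum _ fun i _ => continuous_finsetSum _ fun j _ => ?_
    exact ((continuous_apply_apply i j).comp h5).mul continuous_const
  have cb : Continuous b := hb.continuous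
  have cb' : Continuous (deriv b) := hb.continuous_deriv (by simp)
  -- the three integrands
  set h1 : ℝ → ℝ := fun τ => b (g τ) * K0 τ with hh1
  set h2 : ℝ → ℝ := fun τ => deriv b (g τ) * g' τ * (W0 τ * g' τ) with hh2
  set h3 : ℝ → ℝ := fun τ => b (g τ) * (W1 τ * g' τ + W0 τ * g2 τ) with hh3
  have c1 : Continuous h1 := (cb.comp cg).mul cK0
  have c2 : Continuous h2 := ((cb'.comp cg).mul cg').mul (cW0.mul cg')
  have c3 : Continuous h3 := (cb.comp cg).mul ((cW1.mul cg').add (cW0.mul cg2))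
  have s1 : ∀ τ : ℝ, |τ| ≤ r → h1 τ = 0 := fun τ hτ => by
    simp only [hh1, hg]; rw [(hsm τ hτ).1, zero_mul]
  have s2 : ∀ τ : ℝ, |τ| ≤ r → h2 τ = 0 := fun τ hτ => by
    simp only [hh2, hg]; rw [(hsm τ hτ).2, zero_mul, zero_mul]
  have s3 : ∀ τ : ℝ, |τ| ≤ r → h3 τ = 0 := fun τ hτ => by
    simp only [hh3, hg]; rw [(hsm τ hτ).1, zero_mul]
  have l1 : ∀ τ : ℝ, R ≤ |τ| → h1 τ = 0 := fun τ hτ => by
    simp only [hh1, hg]; rw [(hla τ hτ).1, zero_mul]
  have l2 : ∀ τ : ℝ, R ≤ |τ| → h2 τ = 0 := fun τ hτ => by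
    simp only [hh2, hg]; rw [(hla τ hτ).2, zero_mul, zero_mul]
  have l3 : ∀ τ : ℝ, R ≤ |τ| → h3 τ = 0 := fun τ hτ => by
    simp only [hh3, hg]; rw [(hla τ hτ).1, zero_mul]
  have i1 := lb_int h1 c1 r R hr0 s1 l1
  have i2 := lb_int h2 c2 r R hr0 s2 l2
  have i3 := lb_int h3 c3 r R hr0 s3 l3
  -- the primitive
  set h4 : ℝ → ℝ := fun τ => b (g τ) * (W0 τ * g' τ) with hh4
  have c4 : Continuous h4 := (cb.comp cg).mul (cW0.mul cg')
  have s4 : ∀ τ : ℝ, |τ| ≤ r → h4 τ = 0 := fun τ hτ => by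
    simp only [hh4, hg]; rw [(hsm τ hτ).1, zero_mul]
  have l4 : ∀ τ : ℝ, R ≤ |τ| → h4 τ = 0 := fun τ hτ => by
    simp only [hh4, hg]; rw [(hla τ hτ).1, zero_mul]
  have i4 := lb_int h4 c4 r R hr0 s4 l4
  have d4 : ∀ τ, HasDerivAt h4 (h2 τ + h3 τ) τ := fun τ => by
    have h5 : HasDerivAt (fun τ => b (g τ)) (deriv b (g τ) * g' τ) τ :=
      (hbd (g τ)).hasDerivAt.comp τ (dg τ)
    have h6 := h5.mul ((dW τ).mul (dg' τ))
    exact h6
  have d5 := lb_der h4 _ d4 r hr0 s4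
  have i23 : MeasureTheory.Integrable (fun τ => Real.sign τ * (h2 τ + h3 τ)) := by
    have := i2.add i3
    refine this.congr (Filter.Eventually.of_forall fun τ => ?_)
    simp only [Pi.add_apply]
    ring
  have z0 := MeasureTheory.integral_eq_zero_of_hasDerivAt_of_integrable d5 i23 i4
  have z1 : ∫ τ, Real.sign τ * (h2 τ + h3 τ) =
      (∫ τ, Real.sign τ * h2 τ) + ∫ τ, Real.sign τ * h3 τ := by
    rw [← MeasureTheory.integral_add i2 i3]
    refine MeasureTheory.integral_congr_ae (Filter.Eventually.of_forall fun τ => ?_)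
    show Real.sign τ * (h2 τ + h3 τ) = Real.sign τ * h2 τ + Real.sign τ * h3 τ
    ring
  have eM : ∀ τ, Real.sign τ * bil (fld f w k b (X + τ • W)) W W =
      Real.sign τ * h1 τ + Real.sign τ * h2 τ := fun τ => by
    rw [lb_bil, ← fderiv_eq_gr]
    simp only [hh1, hh2, hg, hg', hW0, hK0]
    ring
  have eP : ∀ τ, Real.sign τ * (b (f (X + τ • W)) * Kq f w k (X + τ • W) W) =
      Real.sign τ * h1 τ - Real.sign τ * h3 τ := fun τ => by
    simp only [hh1, hh3, hg, hg', hW0, hW1, hg2, hK0, Kq]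
    ring
  refine ⟨(i1.add i2).congr (Filter.Eventually.of_forall fun τ => (eM τ).symm), ?_⟩
  unfold Ps
  simp only
  rw [MeasureTheory.integral_congr_ae (Filter.Eventually.of_forall eM),
    MeasureTheory.integral_congr_ae (Filter.Eventually.of_forall eP),
    MeasureTheory.integral_add i1 i2, MeasureTheory.integral_sub i1 i3]
  linarith

/-- one line -/
private theorem lb_core (f w : V d → ℝ) (k : Ten d) (lo hi : ℝ) (P : V d) (L : Loc f w k lo hi P)
    (b : ℝ → ℝ) (hb : ContDiff ℝ ∞ b) (a c : ℝ) (hz : ∀ s, s ∉ Set.Icc a c → b s = 0)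
    (N X W : V d) (hne : ∀ τ : ℝ, X + τ • W ≠ 0) (r R : ℝ) (hr0 : 0 < r)
    (hR : ∀ τ : ℝ, R ≤ |τ| → f (X + τ • W) < a) (hr : ∀ τ : ℝ, |τ| ≤ r → c < f (X + τ • W))
    (hs : ∀ τ : ℝ, r ≤ |τ| → |τ| ≤ R →
      Real.sign ((X + τ • W) ⬝ᵥ N) * Real.sign ((X + τ • W) 0) = Real.sign τ)
    (hodd : OddF (dir f w k b)) :
    (1 / 4) * Phi (sg N (dir f w k b)) X W = Ps f (Kq f w k) b (X, W) := by
  obtain ⟨hint, hval⟩ := lb_line f w k lo hi P L b hb a c hz X W hne r R hr0 hR hr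
  set F : ℝ → ℝ := fun s => bil (sg N (dir f w k b) (gc X W s)) (gd X W s) (gd X W s) with hF
  set G : ℝ → ℝ := fun τ => Real.sign τ * bil (fld f w k b (X + τ • W)) W W with hG
  have hbM : ∀ x : V d, f x ∉ Set.Icc a c → bil (fld f w k b x) W W = 0 := fun x hx => by
    rw [lb_bil, hz _ hx, lb_bump b a c hz _ hx]
    ring
  -- the sign
  have hsg : ∀ τ : ℝ, Real.sign ((X + τ • W) ⬝ᵥ N) * Real.sign ((X + τ • W) 0) *
      bil (fld f w k b (X + τ • W)) W W = G τ := fun τ => by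
    simp only [hG]
    by_cases h1 : |τ| ≤ r
    · rw [hbM _ fun hm => absurd (hr τ h1) (not_lt.2 hm.2), mul_zero, mul_zero]
    · by_cases h2 : R ≤ |τ|
      · rw [hbM _ fun hm => absurd (hR τ h2) (not_lt.2 hm.1), mul_zero, mul_zero]
      · rw [hs τ (not_le.1 h1).le (not_le.1 h2).le]
  -- the integrand for `|s| < π / 2`
  have hFG : ∀ s ∈ Set.Ioo (-(Real.pi / 2)) (Real.pi / 2),
      |1 / Real.cos s ^ 2| • G (Real.tan s) = F s := by
    intro s hsI
    have hc0 : 0 < Real.cos s := Real.cos_pos_of_mem_Ioo hsI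
    simp only [hF]
    rw [lb_gc X W s hc0.ne', lb_scale f w k lo hi P L b N _ hc0 _ (hne _), bil_smul_mat,
      lb_gd X W s hc0.ne', lb_comb f w k lo hi P L b _ W (hne _), ← hsg, smul_eq_mul,
      abs_of_nonneg (by positivity)]
    rw [one_div, inv_pow]
    ring
  have htd : ∀ s ∈ Set.Ioo (-(Real.pi / 2)) (Real.pi / 2),
      HasDerivWithinAt Real.tan (1 / Real.cos s ^ 2) (Set.Ioo (-(Real.pi / 2)) (Real.pi / 2)) s :=
    fun s hsI => (Real.hasDerivAt_tan (Real.cos_pos_of_mem_Ioo hsI).ne').hasDerivWithinAt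
  have hcv := MeasureTheory.integral_image_eq_integral_abs_deriv_smul measurableSet_Ioo htd
    Real.strictMonoOn_tan.injOn G
  have hiv := MeasureTheory.integrableOn_image_iff_integrableOn_abs_deriv_smul measurableSet_Ioo htd
    Real.strictMonoOn_tan.injOn G
  rw [Real.image_tan_Ioo, MeasureTheory.setIntegral_univ,
    MeasureTheory.setIntegral_congr_fun measurableSet_Ioo hFG] at hcv
  rw [Real.image_tan_Ioo, MeasureTheory.integrableOn_univ] at hiv
  have hFi : MeasureTheory.IntegrableOn F (Set.Ioo (-(Real.pi / 2)) (Real.pi / 2)) :=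
    (hiv.1 hint).congr_fun hFG measurableSet_Ioo
  have hle : -(Real.pi / 2) ≤ Real.pi / 2 := by
    have := Real.pi_pos
    linarith
  have hFI : IntervalIntegrable F MeasureTheory.volume (-(Real.pi / 2)) (Real.pi / 2) := by
    rw [intervalIntegrable_iff_integrableOn_Ioo_of_le hle]
    exact hFi
  have hFv : ∫ s in (-(Real.pi / 2))..(Real.pi / 2), F s = ∫ τ, G τ := by
    rw [intervalIntegral.integral_of_le hle, MeasureTheory.integral_Ioc_eq_integral_Ioo, hcv]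
  -- periodicity
  have hper : Function.Periodic F Real.pi := fun s => by
    have e1 : gc X W (s + Real.pi) = -gc X W s := by
      simp only [gc, Real.cos_add_pi, Real.sin_add_pi, neg_smul]
      abel
    have e2 : gd X W (s + Real.pi) = -gd X W s := by
      simp only [gd, Real.cos_add_pi, Real.sin_add_pi, neg_smul]
      abel
    have e3 : sg N (dir f w k b) (-gc X W s) = sg N (dir f w k b) (gc X W s) := by
      funext i j
      simp only [sg]
      rw [neg_dotProduct, Real.sign_neg, hodd]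
      ring
    simp only [hF]
    rw [e1, e2, e3, bil_neg_left, bil_neg_right, neg_neg]
  have hpi : -(Real.pi / 2) + Real.pi = Real.pi / 2 := by ring
  have hall : ∀ t₁ t₂, IntervalIntegrable F MeasureTheory.volume t₁ t₂ := fun t₁ t₂ =>
    hper.intervalIntegrable Real.pi_ne_zero (t := -(Real.pi / 2)) (by rw [hpi]; exact hFI) t₁ t₂
  have hPhi : Phi (sg N (dir f w k b)) X W = 2 * ∫ τ, G τ := by
    have e1 := hper.intervalIntegral_add_eq 0 (-(Real.pi / 2))
    have e2 := hper.intervalIntegral_add_eq Real.pi (-(Real.pi / 2))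
    rw [hpi, hFv] at e1 e2
    rw [zero_add] at e1
    have e3 : Phi (sg N (dir f w k b)) X W = ∫ s in (0 : ℝ)..(2 * Real.pi), F s := rfl
    rw [e3, ← intervalIntegral.integral_add_adjacent_intervals (hall 0 Real.pi)
      (hall Real.pi (2 * Real.pi)), e1, show 2 * Real.pi = Real.pi + Real.pi by ring, e2]
    ring
  rw [hPhi, ← hval]
  ring

theorem linB (f w : V d → ℝ) (k : Ten d) (lo hi : ℝ) (P : V d) (L : Loc f w k lo hi P) (b : ℝ → ℝ)
    (hb : Bump lo (f P) b) (v : V d) (hv0 : v 0 = 0) (hv : v ≠ 0) :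
    ∀ᶠ z in 𝓝 (P, v), (1 / 4) * Phi (sg (NN P v) (dir f w k b)) z.1 z.2 = Ps f (Kq f w k) b z := by
  obtain ⟨hbs, a, c, ha, hc, hz⟩ := hb
  have hodd : OddF (dir f w k b) := dir_odd f w k lo hi P L b ⟨hbs, a, c, ha, hc.trans L.lt_hi, hz⟩
  have hP0 : P ≠ 0 := by
    rintro rfl
    exact lt_irrefl _ L.P0
  have hPP : 0 < P ⬝ᵥ P := lt_of_le_of_ne (dot_self_nonneg P) fun h0 =>
    hP0 (dotProduct_self_eq_zero.1 h0.symm)
  set N : V d := NN P v with hN
  have hPN : P ⬝ᵥ N = 0 := by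
    rw [hN, NN, dotProduct_sub, dotProduct_smul, smul_eq_mul, div_mul_cancel₀ _ hPP.ne',
      dotProduct_comm, sub_self]
  have hN0 : N ≠ 0 := by
    intro h0
    have h1 : N 0 = 0 := by rw [h0]; rfl
    have h2 : N 0 = v 0 - (v ⬝ᵥ P) / (P ⬝ᵥ P) * P 0 := rfl
    rw [h2, hv0, zero_sub, neg_eq_zero, mul_eq_zero] at h1
    rcases h1 with h1 | h1
    · apply hv
      rw [hN, NN, h1, zero_smul, sub_zero] at h0
      exact h0
    · exact L.P0.ne' h1
  have hvN : 0 < v ⬝ᵥ N := by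
    have h1 : v ⬝ᵥ N = N ⬝ᵥ N := by
      have h2 : v = N + ((v ⬝ᵥ P) / (P ⬝ᵥ P)) • P := by
        rw [hN, NN]
        abel
      calc v ⬝ᵥ N = (N + ((v ⬝ᵥ P) / (P ⬝ᵥ P)) • P) ⬝ᵥ N := by rw [← h2]
        _ = N ⬝ᵥ N := by rw [add_dotProduct, smul_dotProduct, hPN, smul_zero, add_zero]
    rw [h1]
    exact lt_of_le_of_ne (dot_self_nonneg N) fun h0 => hN0 (dotProduct_self_eq_zero.1 h0.symm)
  have hopen : IsOpen ({0}ᶜ : Set (V d)) := isOpen_compl_singleton
  have cf : ContinuousOn f ({0}ᶜ : Set (V d)) := L.fs.continuousOn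
  -- large parameters
  have h1 : ∀ᶠ p : (V d × V d) × ℝ in 𝓝 ((P, v), (0 : ℝ)),
      p.2 • p.1.1 + p.1.2 ≠ 0 ∧ f (p.2 • p.1.1 + p.1.2) < lo := by
    have e : (0 : ℝ) • P + v = v := by rw [zero_smul, zero_add]
    have c1 : Filter.Tendsto (fun p : (V d × V d) × ℝ => p.2 • p.1.1 + p.1.2)
        (𝓝 ((P, v), (0 : ℝ))) (𝓝 v) := by
      have c0 : Continuous (fun p : (V d × V d) × ℝ => p.2 • p.1.1 + p.1.2) := by fun_prop
      have := c0.tendsto ((P, v), (0 : ℝ))
      simp only [e] at this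
      exact this
    have c2 : Filter.Tendsto f (𝓝 v) (𝓝 (f v)) := (cf.continuousAt (hopen.mem_nhds hv)).tendsto
    exact (c1.eventually (hopen.mem_nhds hv)).and
      ((c2.comp c1).eventually (isOpen_Iio.mem_nhds (L.feq v hv hv0)))
  rw [nhds_prod_eq, Filter.eventually_prod_iff] at h1
  obtain ⟨pa, hpa, pb, hpb, h1⟩ := h1
  obtain ⟨δ, hδ, hpb'⟩ := Metric.eventually_nhds_iff.1 hpb
  -- small parameters
  have h2 : ∀ᶠ p : (V d × V d) × ℝ in 𝓝 ((P, v), (0 : ℝ)), c < f (p.1.1 + p.2 • p.1.2) := by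
    have e : P + (0 : ℝ) • v = P := by rw [zero_smul, add_zero]
    have c1 : Filter.Tendsto (fun p : (V d × V d) × ℝ => p.1.1 + p.2 • p.1.2)
        (𝓝 ((P, v), (0 : ℝ))) (𝓝 P) := by
      have c0 : Continuous (fun p : (V d × V d) × ℝ => p.1.1 + p.2 • p.1.2) := by fun_prop
      have := c0.tendsto ((P, v), (0 : ℝ))
      simp only [e] at this
      exact this
    have c2 : Filter.Tendsto f (𝓝 P) (𝓝 (f P)) := (cf.continuousAt (hopen.mem_nhds hP0)).tendsto
    exact (c2.comp c1).eventually (isOpen_Ioi.mem_nhds hc)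
  rw [nhds_prod_eq, Filter.eventually_prod_iff] at h2
  obtain ⟨qa, hqa, qb, hqb, h2⟩ := h2
  obtain ⟨r', hr', hqb'⟩ := Metric.eventually_nhds_iff.1 hqb
  set r : ℝ := r' / 2 with hr
  have hr0 : 0 < r := by positivity
  set R : ℝ := 2 / δ with hR
  have hR0 : 0 < R := by positivity
  have h3 : ∀ᶠ z : V d × V d in 𝓝 (P, v), ∀ τ ∈ Set.Icc (-R) R, 0 < (z.1 + τ • z.2) 0 := by
    refine isCompact_Icc.eventually_forall_of_forall_eventually fun τ _ => ?_
    have c0 : Continuous (fun p : (V d × V d) × ℝ => (p.1.1 + p.2 • p.1.2) 0) := by fun_prop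
    have c1 := c0.tendsto ((P, v), τ)
    refine c1.eventually (isOpen_Ioi.mem_nhds ?_)
    show 0 < P 0 + τ * v 0
    rw [hv0, mul_zero, add_zero]
    exact L.P0
  have h4 : ∀ᶠ z : V d × V d in 𝓝 (P, v), ∀ τ ∈ Set.Icc (-R) R ∩ {τ : ℝ | r ≤ |τ|},
      0 < τ * ((z.1 + τ • z.2) ⬝ᵥ N) := by
    have hK : IsCompact (Set.Icc (-R) R ∩ {τ : ℝ | r ≤ |τ|}) :=
      isCompact_Icc.inter_right (isClosed_le continuous_const continuous_abs)
    refine hK.eventually_forall_of_forall_eventually fun τ hτ => ?_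
    have c0 : Continuous (fun p : (V d × V d) × ℝ => p.2 * ((p.1.1 + p.2 • p.1.2) ⬝ᵥ N)) := by
      simp only [dotProduct]
      fun_prop
    have c1 := c0.tendsto ((P, v), τ)
    refine c1.eventually (isOpen_Ioi.mem_nhds ?_)
    show 0 < τ * ((P + τ • v) ⬝ᵥ N)
    rw [add_dotProduct, smul_dotProduct, hPN, zero_add, smul_eq_mul]
    have hτ0 : τ ≠ 0 := by
      rintro rfl
      have h7 : r ≤ |(0 : ℝ)| := hτ.2
      rw [abs_zero] at h7
      linarith
    have : 0 < τ * τ := mul_self_pos.2 hτ0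
    calc 0 < τ * τ * (v ⬝ᵥ N) := mul_pos this hvN
      _ = τ * (τ * (v ⬝ᵥ N)) := by ring
  filter_upwards [hpa, hqa, h3, h4] with z z1 z2 z3 z4
  -- large parameters
  have hlarge : ∀ τ : ℝ, R ≤ |τ| → z.1 + τ • z.2 ≠ 0 ∧ f (z.1 + τ • z.2) < lo := by
    intro τ hτ
    have hτ0 : τ ≠ 0 := by
      rintro rfl
      rw [abs_zero] at hτ
      linarith
    have hd : dist τ⁻¹ 0 < δ := by
      rw [dist_zero_right, Real.norm_eq_abs, abs_inv]
      have h5 : |τ|⁻¹ ≤ R⁻¹ := inv_anti₀ hR0 hτ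
      have h6 : R⁻¹ = δ / 2 := by rw [hR, inv_div]
      linarith
    obtain ⟨h7, h8⟩ := h1 z1 (hpb' hd)
    simp only at h7 h8
    have e : z.1 + τ • z.2 = τ • (τ⁻¹ • z.1 + z.2) := by
      rw [smul_add, smul_smul, mul_inv_cancel₀ hτ0, one_smul]
    rw [e]
    exact ⟨smul_ne_zero hτ0 h7, by rw [L.fh τ _ hτ0]; exact h8⟩
  have hne : ∀ τ : ℝ, z.1 + τ • z.2 ≠ 0 := by
    intro τ h0
    by_cases hτ : R ≤ |τ|
    · exact (hlarge τ hτ).1 h0
    · rw [not_le] at hτ
      have h5 := z3 τ ⟨(abs_lt.1 hτ).1.le, (abs_lt.1 hτ).2.le⟩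
      rw [h0] at h5
      exact lt_irrefl _ h5
  refine lb_core f w k lo hi P L b hbs a c hz N z.1 z.2 hne r R hr0
    (fun τ hτ => (hlarge τ hτ).2.trans ha) (fun τ hτ => ?_) (fun τ hτ1 hτ2 => ?_) hodd
  · have hd : dist τ 0 < r' := by
      rw [dist_zero_right, Real.norm_eq_abs]
      linarith
    exact h2 z2 (hqb' hd)
  · have hI : τ ∈ Set.Icc (-R) R := abs_le.1 hτ2
    have h5 := z3 τ hI
    have h6 := z4 τ ⟨hI, hτ1⟩
    rw [Real.sign_of_pos h5, mul_one]
    rcases lt_trichotomy τ 0 with ht | ht | ht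
    · rw [Real.sign_of_neg ht, Real.sign_of_neg (by nlinarith)]
    · rw [ht, abs_zero] at hτ1
      linarith
    · rw [Real.sign_of_pos ht, Real.sign_of_pos (by nlinarith)]

end Pool.Agent.Work.MP_659252_gt.QR
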