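import Pool.Agent.Work.MP_659252_gt.QR.D.Brx
import Pool.Agent.Work.MP_659252_gt.QR.D.LinA
import Pool.Agent.Work.MP_659252_gt.QR.D.LinB

/-!
# THEOREM D: the bracket of the line integrals is the integral of a tensor.  Size: S-M.

PROOF.  `brx`, and `linA` (for `b₂`, a `Bump lo hi`), `linB` (for `b₁`) hold for all `z` near `(P, v)`; so for `z` near `(P, v)` the functions agree near `z`
(`eventually_eventually_nhds`), hence their `fderiv` at `z` agree (`Filter.EventuallyEq.fderiv_eq`), and so do the brackets.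
-/

namespace Pool.Agent.Work.MP_659252_gt.QR

open scoped ContDiff Topology
open Pool.Agent.Work.MP_659252_gt.Z (V Ten val Tan InT IsZoll IsMetric IsGeodesic)

variable {d : ℕ}

theorem brD (hd : 1 ≤ d) (f w : V d → ℝ) (k : Ten d) (lo hi : ℝ) (P : V d) (L : Loc f w k lo hi P) (b₁ : ℝ → ℝ)
    (h₁ : Bump lo (f P) b₁) (v : V d) (hv0 : v 0 = 0) (hv : v ≠ 0) (hvn : gr f P ⬝ᵥ v = 0) :
    ∃ e > 0, lo < f P - e ∧ f P + e < hi ∧ ∀ b₂, Bump (f P - e) (f P + e) b₂ → ∃ K : Ten d, Fld K ∧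
      ∀ᶠ z in 𝓝 (P, v), br (Fz f (Kq f w k) b₂) (Ps f (Kq f w k) b₁) z = Phi K z.1 z.2 := by
  obtain ⟨e, he, h1, h2, H⟩ := brx hd f w k lo hi P L b₁ h₁ v hv0 hv hvn
  refine ⟨e, he, h1, h2, fun b₂ hb₂ => ?_⟩
  obtain ⟨K, hK, hev⟩ := H b₂ hb₂
  refine ⟨K, hK, ?_⟩
  have hb₂' : Bump lo hi b₂ := by
    obtain ⟨hs, a, c, ha, hc, hac⟩ := hb₂
    exact ⟨hs, a, c, h1.trans ha, hc.trans h2, hac⟩
  have eA := linA f w k lo hi P L b₂ hb₂' v hv0 hv
  have eB := linB f w k lo hi P L b₁ h₁ v hv0 hv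
  filter_upwards [hev, eventually_eventually_nhds.2 eA, eventually_eventually_nhds.2 eB] with z hz h3 h4
  have f3 : fderiv ℝ (fun z : V d × V d => (1 / 4) * Phi (sg (ee 0) (dir f w k b₂)) z.1 z.2) z =
      fderiv ℝ (Fz f (Kq f w k) b₂) z := Filter.EventuallyEq.fderiv_eq h3
  have f4 : fderiv ℝ (fun z : V d × V d => (1 / 4) * Phi (sg (NN P v) (dir f w k b₁)) z.1 z.2) z =
      fderiv ℝ (Ps f (Kq f w k) b₁) z := Filter.EventuallyEq.fderiv_eq h4
  unfold br at hz ⊢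
  rw [← f3, ← f4]
  exact hz

end Pool.Agent.Work.MP_659252_gt.QR
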