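import Pool.Agent.Work.MP_659252_gt.QR.D.Defs

/-!
# The bracket of equivariant functions.  Size: S-M.

PROOF.  Let `g z = (l z.1, m z.2 + n z.1)` (linear).  `φ ∘ g = l m φ` on the open set `D`, so for `z ∈ D`: `fderiv φ (g z) (l A, m B + n A) = l m fderiv φ z (A, B)` (chain rule).
With `A = 0`: `fderiv φ (g z) (0, B) = l fderiv φ z (0, B)`.  With `B = 0`: `l fderiv φ (g z) (A, 0) + n fderiv φ (g z) (0, A) = l m fderiv φ z (A, 0)`, so
`fderiv φ (g z) (A, 0) = m fderiv φ z (A, 0) - n fderiv φ z (0, A)`.  Insert in `br`: the terms with `n` cancel, the factor is `l m`.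
-/

namespace Pool.Agent.Work.MP_659252_gt.QR

open scoped ContDiff Topology
open Pool.Agent.Work.MP_659252_gt.Z (V Ten val Tan InT IsZoll IsMetric IsGeodesic)

variable {d : ℕ}

private theorem der_equi (D : Set (V d × V d)) (hD : IsOpen D) (φ : V d × V d → ℝ)
    (hφ : DifferentiableOn ℝ φ D) (l m n : ℝ)
    (hg : ∀ z ∈ D, (l • z.1, m • z.2 + n • z.1) ∈ D)
    (eφ : ∀ z ∈ D, φ (l • z.1, m • z.2 + n • z.1) = l * m * φ z) (z : V d × V d) (hz : z ∈ D)
    (v : V d × V d) :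
    fderiv ℝ φ (l • z.1, m • z.2 + n • z.1) (l • v.1, m • v.2 + n • v.1) =
      l * m * fderiv ℝ φ z v := by
  obtain ⟨G, hG⟩ : ∃ G : (V d × V d) →L[ℝ] (V d × V d), ∀ y, G y = (l • y.1, m • y.2 + n • y.1) :=
    ⟨(l • ContinuousLinearMap.fst ℝ (V d) (V d)).prod
      (m • ContinuousLinearMap.snd ℝ (V d) (V d) + n • ContinuousLinearMap.fst ℝ (V d) (V d)),
      fun y => rfl⟩
  have h1 : HasFDerivAt φ (fderiv ℝ φ (G z)) (G z) := by
    refine ((hφ.differentiableAt (hD.mem_nhds ?_))).hasFDerivAt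
    rw [hG]
    exact hg z hz
  have h2 : HasFDerivAt (fun y => φ (G y)) ((fderiv ℝ φ (G z)).comp G) z :=
    h1.comp z G.hasFDerivAt
  have h3 : HasFDerivAt (fun y => l * m * φ y) ((l * m) • fderiv ℝ φ z) z :=
    ((hφ.differentiableAt (hD.mem_nhds hz)).hasFDerivAt).const_mul (l * m)
  have h4 : (fun y => φ (G y)) =ᶠ[𝓝 z] fun y => l * m * φ y := by
    filter_upwards [hD.mem_nhds hz] with y hy
    rw [hG]
    exact eφ y hy
  have h5 := (h2.congr_of_eventuallyEq h4.symm).unique h3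
  have h6 := congrArg (fun A : (V d × V d) →L[ℝ] ℝ => A v) h5
  simp only [ContinuousLinearMap.comp_apply, ContinuousLinearMap.smul_apply, smul_eq_mul] at h6
  rw [hG, hG] at h6
  exact h6

theorem br_equi (D : Set (V d × V d)) (hD : IsOpen D) (φ ψ : V d × V d → ℝ) (hφ : DifferentiableOn ℝ φ D)
    (hψ : DifferentiableOn ℝ ψ D) (l m n : ℝ) (hl : 0 < l) (hm : 0 < m)
    (hg : ∀ z ∈ D, (l • z.1, m • z.2 + n • z.1) ∈ D) (eφ : ∀ z ∈ D, φ (l • z.1, m • z.2 + n • z.1) = l * m * φ z)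
    (eψ : ∀ z ∈ D, ψ (l • z.1, m • z.2 + n • z.1) = l * m * ψ z) (z : V d × V d) (hz : z ∈ D) :
    br φ ψ (l • z.1, m • z.2 + n • z.1) = l * m * br φ ψ z := by
  have key : ∀ χ : V d × V d → ℝ, DifferentiableOn ℝ χ D →
      (∀ z ∈ D, χ (l • z.1, m • z.2 + n • z.1) = l * m * χ z) → ∀ i,
      fderiv ℝ χ (l • z.1, m • z.2 + n • z.1) (0, ee i) = l * fderiv ℝ χ z (0, ee i) ∧
      fderiv ℝ χ (l • z.1, m • z.2 + n • z.1) (ee i, 0) =
        m * fderiv ℝ χ z (ee i, 0) - n * fderiv ℝ χ z (0, ee i) := by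
    intro χ hχ eχ i
    have h1 := der_equi D hD χ hχ l m n hg eχ z hz (0, ee i)
    have h2 := der_equi D hD χ hχ l m n hg eχ z hz (ee i, 0)
    simp only [smul_zero, add_zero, zero_add] at h1 h2
    have e1 : ((0 : V d), m • ee i) = m • ((0 : V d), (ee i : V d)) := by
      rw [Prod.smul_mk, smul_zero]
    have e2 : ((l • ee i : V d), n • (ee i : V d)) =
        l • ((ee i : V d), (0 : V d)) + n • ((0 : V d), (ee i : V d)) := by
      rw [Prod.smul_mk, Prod.smul_mk, smul_zero, smul_zero, Prod.mk_add_mk, add_zero, zero_add]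
    rw [e1, map_smul, smul_eq_mul] at h1
    rw [e2, map_add, map_smul, map_smul, smul_eq_mul, smul_eq_mul] at h2
    have h3 : fderiv ℝ χ (l • z.1, m • z.2 + n • z.1) (0, ee i) = l * fderiv ℝ χ z (0, ee i) := by
      have := mul_left_cancel₀ hm.ne' (show m * fderiv ℝ χ (l • z.1, m • z.2 + n • z.1) (0, ee i) =
        m * (l * fderiv ℝ χ z (0, ee i)) by rw [h1]; ring)
      exact this
    refine ⟨h3, ?_⟩
    rw [h3] at h2
    apply mul_left_cancel₀ hl.ne'
    linear_combination h2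
  unfold br
  rw [Finset.mul_sum]
  refine Finset.sum_congr rfl fun i _ => ?_
  obtain ⟨a1, a2⟩ := key φ hφ eφ i
  obtain ⟨b1, b2⟩ := key ψ hψ eψ i
  rw [a1, a2, b1, b2]
  ring

end Pool.Agent.Work.MP_659252_gt.QR
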