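import Pool.Agent.Work.MP_659252_gt.QR.D.Defs
import Pool.Agent.Work.MP_659252_gt.QR.A.EulA
import Pool.Agent.Work.MP_659252_gt.QR.A.Yp

/-!
# The fields `sg N h`.  Size: M.

PROOF.  `Cs_open`: `{x | ¬ Act h x}` is open (`eventually_eventually_nhds`), `{x | x ⬝ N ≠ 0}` is open.  `Cs_cone`: `c > 0`: `h` vanishes near `c x` if it vanishes near `x`
(`hom`: `h (c y) = h y`, the map `y ↦ c y` is a homeomorphism).  `sg_fld`: near a point of `Cs` either the sign is constant or `h = 0`; the algebraic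
properties hold everywhere (`sign (c x ⬝ N) = sign (x ⬝ N)` for `c > 0`).
`Eul_of_not_act`: `h = 0` near `x`, so `dT h x = 0`.  `Eul_sg`: near `x ∈ Cs`: if `x ⬝ N ≠ 0` then `sg N h = s • h` near `x` with the constant `s = sign (x ⬝ N)`; otherwise
both sides are `0`.
`sg_even`: for odd `h`: `sign (-x ⬝ N) h (-x) = sign (x ⬝ N) h x`.  `Eul_even`: `dT E (-x) v = -dT E x v` for an even field `E`, so `Eul E (-x) (-v) = -Eul E x v`.
-/

namespace Pool.Agent.Work.MP_659252_gt.QR

open scoped ContDiff Topology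
open Pool.Agent.Work.MP_659252_gt.Z (V Ten val Tan InT IsZoll IsMetric IsGeodesic)

variable {d : ℕ}

private theorem dT_congr {G G' : Ten d} {x : V d} (h : G =ᶠ[𝓝 x] G') (v : V d) :
    dT G x v = dT G' x v := by
  funext i j
  have h1 : (fun y => G y i j) =ᶠ[𝓝 x] fun y => G' y i j := by
    filter_upwards [h] with y hy
    rw [hy]
  simp only [dT, h1.fderiv_eq]

private theorem Eul_congr {G G' : Ten d} {x : V d} (h : G =ᶠ[𝓝 x] G') (v : V d) :
    Eul G x v = Eul G' x v := by
  funext i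
  simp only [Eul, dT_congr h]

private theorem dT_zero (x v : V d) : dT (fun _ => (0 : Mat d)) x v = fun _ _ => 0 := by
  funext i j
  simp [dT]

private theorem not_act {h : Ten d} {x : V d} (hx : ¬ Act h x) : ∀ᶠ y in 𝓝 x, h y = 0 :=
  not_not.1 hx

private theorem sign_ev (N : V d) {x : V d} (hx : x ⬝ᵥ N ≠ 0) :
    ∀ᶠ y in 𝓝 x, Real.sign (y ⬝ᵥ N) = Real.sign (x ⬝ᵥ N) := by
  have hc : Continuous fun y : V d => y ⬝ᵥ N := by
    simp only [dotProduct]
    fun_prop
  rcases lt_or_gt_of_ne hx with h | h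
  · filter_upwards [hc.continuousAt.eventually_lt_const h] with y hy
    rw [Real.sign_of_neg h, Real.sign_of_neg hy]
  · filter_upwards [hc.continuousAt.eventually_const_lt h] with y hy
    rw [Real.sign_of_pos h, Real.sign_of_pos hy]

private theorem sg_ev (N : V d) (h : Ten d) {x : V d} (hx : x ⬝ᵥ N ≠ 0) :
    sg N h =ᶠ[𝓝 x] fun y i j => Real.sign (x ⬝ᵥ N) * h y i j := by
  filter_upwards [sign_ev N hx] with y hy
  funext i j
  simp only [sg, hy]

private theorem sg_ev0 (N : V d) (h : Ten d) {x : V d} (hx : ¬ Act h x) :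
    ∀ᶠ y in 𝓝 x, sg N h y = 0 := by
  filter_upwards [not_act hx] with y hy
  funext i j
  simp [sg, hy]

private theorem sign_scale (N : V d) {c : ℝ} (hc : 0 < c) (x : V d) :
    Real.sign ((c • x) ⬝ᵥ N) = Real.sign (x ⬝ᵥ N) := by
  rw [smul_dotProduct, smul_eq_mul]
  rcases lt_trichotomy (x ⬝ᵥ N) 0 with h | h | h
  · rw [Real.sign_of_neg h, Real.sign_of_neg (mul_neg_of_pos_of_neg hc h)]
  · rw [h, mul_zero]
  · rw [Real.sign_of_pos h, Real.sign_of_pos (mul_pos hc h)]

theorem Cs_open (N : V d) (h : Ten d) : IsOpen (Cs N h) := by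
  have hc : Continuous fun y : V d => y ⬝ᵥ N := by
    simp only [dotProduct]
    fun_prop
  have h1 : Cs N h = {x | x ≠ 0} ∩ ({x | x ⬝ᵥ N ≠ 0} ∪ {x | ∀ᶠ y in 𝓝 x, h y = 0}) := by
    ext x
    simp only [Cs, Act, not_not]
    rfl
  rw [h1]
  refine isOpen_ne.inter (IsOpen.union ?_ isOpen_setOfPred_eventually_nhds)
  exact isOpen_ne_fun hc continuous_const

theorem Cs_cone (N : V d) (h : Ten d) (hh : Fld h) (c : ℝ) (x : V d) (hc : 0 < c) (hx : x ∈ Cs N h) :
    c • x ∈ Cs N h := by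
  obtain ⟨hx0, hx⟩ := hx
  refine ⟨smul_ne_zero hc.ne' hx0, ?_⟩
  rcases hx with hx | hx
  · left
    rw [smul_dotProduct, smul_eq_mul]
    exact mul_ne_zero hc.ne' hx
  · right
    refine not_not.2 ?_
    have h1 : Filter.Tendsto (fun y : V d => c⁻¹ • y) (𝓝 (c • x)) (𝓝 x) := by
      have : Filter.Tendsto (fun y : V d => c⁻¹ • y) (𝓝 (c • x)) (𝓝 (c⁻¹ • c • x)) :=
        (continuous_const_smul c⁻¹).tendsto _
      rwa [inv_smul_smul₀ hc.ne'] at this
    filter_upwards [h1.eventually (not_act hx)] with y hy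
    rw [← hh.hom c⁻¹ y (inv_pos.2 hc)]
    exact hy

theorem sg_fld (N : V d) (h : Ten d) (hh : Fld h) : FldOn (sg N h) (Cs N h) := by
  refine ⟨fun x hx => ?_, fun x i j => ?_, fun c x hc => ?_, fun x v => ?_⟩
  · obtain ⟨hx0, hx⟩ := hx
    refine ContDiffAt.contDiffWithinAt ?_
    rcases hx with hx | hx
    · refine ContDiffAt.congr_of_eventuallyEq ?_ (sg_ev N h hx)
      have h1 : ContDiffAt ℝ ∞ h x := hh.smooth.contDiffAt (isOpen_compl_singleton.mem_nhds hx0)
      refine contDiffAt_pi.2 fun i => contDiffAt_pi.2 fun j => ?_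
      exact contDiffAt_const.mul (contDiffAt_pi.1 (contDiffAt_pi.1 h1 i) j)
    · have h1 : sg N h =ᶠ[𝓝 x] fun _ => 0 := sg_ev0 N h hx
      exact ContDiffAt.congr_of_eventuallyEq contDiffAt_const h1
  · simp only [sg, hh.symm x i j]
  · funext i j
    simp only [sg, sign_scale N hc x, hh.hom c x hc]
  · have h1 : sg N h x = fun i j => Real.sign (x ⬝ᵥ N) * h x i j := rfl
    rw [h1, bil_smul_mat, hh.tan, mul_zero]

theorem Eul_of_not_act (h : Ten d) (x v : V d) (hx : ¬ Act h x) : Eul h x v = 0 := by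
  have h1 : h =ᶠ[𝓝 x] fun _ => 0 := not_act hx
  rw [Eul_congr h1]
  funext i
  simp only [Eul, dT_zero, bil, mul, zero_mul, Finset.sum_const_zero, mul_zero, sub_zero,
    Pi.zero_apply]

theorem Eul_sg (N : V d) (h : Ten d) (x v : V d) (hx : x ∈ Cs N h) :
    Eul (sg N h) x v = Real.sign (x ⬝ᵥ N) • Eul h x v := by
  obtain ⟨hx0, hx⟩ := hx
  by_cases hN : x ⬝ᵥ N = 0
  · have hx' : ¬ Act h x := hx.resolve_left fun h => h hN
    have h2 : ¬ Act (sg N h) x := not_not.2 (sg_ev0 N h hx')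
    rw [Eul_of_not_act _ _ _ h2, Eul_of_not_act _ _ _ hx', smul_zero]
  · rw [Eul_congr (sg_ev N h hN)]
    rcases Real.sign_apply_eq_of_ne_zero _ hN with hs | hs
    · rw [hs]
      have h3 : ∀ u : V d, dT (fun y i j => (-1 : ℝ) * h y i j) x u = fun i j => -dT h x u i j := by
        intro u
        funext i j
        simp only [dT, neg_mul, one_mul, fderiv_fun_neg, ContinuousLinearMap.neg_apply]
      funext i
      simp only [Eul, h3]
      simp only [Eul, bil, mul, neg_mul, Finset.sum_neg_distrib, Pi.smul_apply, smul_eq_mul]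
      ring
    · rw [hs]
      simp only [one_mul, one_smul]

theorem sg_even (N : V d) (h : Ten d) (oh : OddF h) (x : V d) (i j : Fin (d + 1)) : sg N h (-x) i j = sg N h x i j := by
  simp only [sg, neg_dotProduct, Real.sign_neg, oh x i j]
  ring

theorem Eul_even (E : Ten d) (he : ∀ x i j, E (-x) i j = E x i j) (x v : V d) : Eul E (-x) (-v) = -Eul E x v := by
  have h1 : ∀ u : V d, dT E (-x) u = fun i j => -dT E x u i j := by
    intro u
    funext i j
    simp only [dT]
    set g : V d → ℝ := fun y => E y i j with hg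
    have h2 : g = g ∘ (ContinuousLinearEquiv.neg ℝ : V d ≃L[ℝ] V d) := by
      funext y
      exact (he y i j).symm
    have h3 : fderiv ℝ g x = -fderiv ℝ g (-x) := by
      conv_lhs => rw [h2]
      rw [ContinuousLinearEquiv.comp_right_fderiv]
      ext u
      simp
    rw [h3]
    simp
  funext i
  have h4 : dT E x (-v) = fun i j => -dT E x v i j := by
    funext i j
    simp only [dT, map_neg]
  simp only [Eul, h1, h4]
  simp only [Eul, bil, mul, Pi.neg_apply, neg_mul, mul_neg, neg_neg, Finset.sum_neg_distrib]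
  ring

end Pool.Agent.Work.MP_659252_gt.QR
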