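import Pool.Agent.Work.MP_659252_gt.QR.D.PhiD
import Pool.Agent.Work.MP_659252_gt.QR.D.Sg

/-!
# The bracket formula at an orthonormal pair.  Size: M-L.

Let `c s = gc X W s`, `c' s = gd X W s`, `E s = Eul (sg (ee 0) k) (c s) (c' s)`, `F = (1/4) Phi (sg (ee 0) k)`, `Q = (1/4) Phi (sg N h)`.
PROOF.  By `Phi_deriv` (with the cones `Cs`): `a_i = fderiv F (X, W) (ee i, 0) = (1/2) ∫ cos σ (E σ)_i`, `b_i = fderiv F (X, W) (0, ee i) = (1/2) ∫ sin σ (E σ)_i`.  Put
`J s = sin s a - cos s b = (1/2) ∫_0^{2π} sin (s - σ) E σ dσ = gc (-b) a s`.  `br F Q (X, W) = fderiv Q (X, W) (-b, a)` (linearity) `= (1/2) ∫ Eul (sg N h) (c s) (c' s) ⬝ J s`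
`= (1/2) ∫ sign (c s ⬝ N) Eul h (c s) (c' s) ⬝ J s` (`Eul_sg`).
CLAIM: if `Act h (c s)` then `Yf k X W s = (1/2) sign (c s ⬝ N) J s`.  For `σ ∈ (s - π, s)`: `0 < sin (s - σ)`; if `Act k (c σ)` then by `Sep` `sign (c σ 0) = sign (c s ⬝ N) =: ς`
and `c σ 0 ≠ 0` (as `c σ ∈ Cs (ee 0) k`), so `ς² = 1`, and `Eul k = ς Eul (sg (ee 0) k)` at `c σ` (`Eul_sg`, `x ⬝ ee 0 = x 0`); otherwise both are `0`.  So
`Yf k s = (1/2) ς ∫_{s-π}^{s} sin (s - σ) E σ dσ`; the integrand is `π`-periodic (`Eul_even`: `E (σ + π) = -E σ`), so the integral is half of the integral over `[0, 2π]`, i.e. `J s`.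
Hence `∫ Eul h ⬝ Yf k = ∫ Eul h ⬝ ((1/2) sign (c s ⬝ N) J s) = br F Q (X, W)` (where `Act h (c s)` fails `Eul h = 0`), and the left side is `Phi K X W`.
-/

namespace Pool.Agent.Work.MP_659252_gt.QR

open scoped ContDiff Topology
open Pool.Agent.Work.MP_659252_gt.Z (V Ten val Tan InT IsZoll IsMetric IsGeodesic)

variable {d : ℕ}

private theorem gc_pi (X W : V d) (s : ℝ) : gc X W (s + Real.pi) = -gc X W s := by
  unfold gc
  rw [Real.cos_add_pi, Real.sin_add_pi, neg_smul, neg_smul, neg_add]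

private theorem gd_pi (X W : V d) (s : ℝ) : gd X W (s + Real.pi) = -gd X W s := by
  unfold gd
  rw [Real.cos_add_pi, Real.sin_add_pi, neg_smul, neg_smul]
  abel

private theorem gc_cont (X W : V d) : Continuous (gc X W) := by
  unfold gc
  fun_prop

private theorem gd_cont (X W : V d) : Continuous (gd X W) := by
  unfold gd
  fun_prop

private theorem eul_cont (k : Ten d) (C : Set (V d)) (hC : IsOpen C) (hk : FldOn k C) (X W : V d)
    (hz : (X, W) ∈ Dom C) : Continuous fun σ => Eul k (gc X W σ) (gd X W σ) := by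
  have h1 := (Eul_smooth k C hC hk).continuousOn
  have h2 : Continuous fun σ => (gc X W σ, gd X W σ) := (gc_cont X W).prodMk (gd_cont X W)
  have h3 : ∀ σ, (gc X W σ, gd X W σ) ∈ C ×ˢ (Set.univ : Set (V d)) := fun σ =>
    ⟨hz σ, Set.mem_univ _⟩
  have h4 := h1.comp_continuous h2 h3
  refine h4.congr fun σ => ?_
  rfl

private theorem int_apply (f : ℝ → V d) (hf : Continuous f) (a b : ℝ) (i : Fin (d + 1)) :
    (∫ s in a..b, f s) i = ∫ s in a..b, f s i := by
  have := (ContinuousLinearMap.proj (R := ℝ) (φ := fun _ : Fin (d + 1) => ℝ) i).intervalIntegral_comp_comm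
    (hf.intervalIntegrable (μ := MeasureTheory.volume) a b)
  exact this.symm

private theorem der_Phi (K : Ten d) (C : Set (V d)) (hC : IsOpen C) (hK : FldOn K C)
    (X W : V d) (hz : (X, W) ∈ Dom C) (A B : V d) :
    fderiv ℝ (fun z : V d × V d => (1 / 4) * Phi K z.1 z.2) (X, W) (A, B) =
      (1 / 2) * ∫ s in (0 : ℝ)..(2 * Real.pi), Eul K (gc X W s) (gd X W s) ⬝ᵥ gc A B s := by
  have h1 : DifferentiableAt ℝ (fun z : V d × V d => Phi K z.1 z.2) (X, W) :=
    ((Phi_smooth K C hC hK).contDiffAt ((Dom_open C hC).mem_nhds hz)).differentiableAt (by simp)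
  rw [fderiv_const_mul h1]
  have h2 := Phi_deriv K C hC hK (X, W) hz A B
  simp only at h2
  show (1 / 4) * (fderiv ℝ (fun z : V d × V d => Phi K z.1 z.2) (X, W) (A, B)) = _
  rw [h2]
  ring

private theorem lin (L : (V d × V d) →L[ℝ] ℝ) (u v : V d) :
    L (u, v) = ∑ i, (u i * L (ee i, 0) + v i * L (0, ee i)) := by
  have hw : ∀ w : V d, w = ∑ k, w k • (ee k : V d) := by
    intro w
    funext l
    simp [ee, Finset.sum_apply, Pi.single_apply]
  have h1 : L (u, 0) = ∑ i, u i * L (ee i, 0) := by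
    have h2 : (L.comp (ContinuousLinearMap.inl ℝ (V d) (V d))) u =
        ∑ i, u i * (L.comp (ContinuousLinearMap.inl ℝ (V d) (V d))) (ee i) := by
      conv_lhs => rw [hw u]
      rw [map_sum]
      simp only [map_smul, smul_eq_mul]
    exact h2
  have h3 : L (0, v) = ∑ i, v i * L (0, ee i) := by
    have h2 : (L.comp (ContinuousLinearMap.inr ℝ (V d) (V d))) v =
        ∑ i, v i * (L.comp (ContinuousLinearMap.inr ℝ (V d) (V d))) (ee i) := by
      conv_lhs => rw [hw v]
      rw [map_sum]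
      simp only [map_smul, smul_eq_mul]
    exact h2
  rw [Finset.sum_add_distrib, ← h1, ← h3, ← map_add, Prod.mk_add_mk, add_zero, zero_add]

private theorem per_int {F : Type*} [NormedAddCommGroup F] [NormedSpace ℝ F] (g : ℝ → F) (hg : Continuous g) (hp : ∀ σ, g (σ + Real.pi) = g σ) (s : ℝ) :
    ∫ σ in (0 : ℝ)..(2 * Real.pi), g σ = (2 : ℝ) • ∫ σ in (s - Real.pi)..s, g σ := by
  have hper : Function.Periodic g Real.pi := hp
  have hint : ∀ a b, IntervalIntegrable g MeasureTheory.volume a b := fun a b =>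
    hg.intervalIntegrable a b
  have h1 : ∫ σ in (0 : ℝ)..(2 * Real.pi), g σ =
      (∫ σ in (0 : ℝ)..Real.pi, g σ) + ∫ σ in Real.pi..(2 * Real.pi), g σ :=
    (intervalIntegral.integral_add_adjacent_intervals (hint _ _) (hint _ _)).symm
  have h2 := hper.intervalIntegral_add_eq Real.pi 0
  rw [← two_mul, zero_add] at h2
  have h3 := hper.intervalIntegral_add_eq (s - Real.pi) 0
  rw [zero_add, sub_add_cancel] at h3
  rw [h1, h2, h3, two_smul]

theorem brg (h k : Ten d) (hh : Fld h) (hk : Fld k) (oh : OddF h) (ok : OddF k) (N : V d) (K : Ten d)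
    (hK : ∀ X W : V d, Orth X W →
      ∫ s in (0 : ℝ)..(2 * Real.pi), Eul h (gc X W s) (gd X W s) ⬝ᵥ Yf k X W s = Phi K X W)
    (X W : V d) (hXW : Orth X W) (dh : (X, W) ∈ Dom (Cs N h)) (dk : (X, W) ∈ Dom (Cs (ee 0) k))
    (Sep : ∀ s σ, 0 < Real.sin (s - σ) → Act h (gc X W s) → Act k (gc X W σ) →
      Real.sign (gc X W σ 0) = Real.sign (gc X W s ⬝ᵥ N)) :
    br (fun z => (1 / 4) * Phi (sg (ee 0) k) z.1 z.2) (fun z => (1 / 4) * Phi (sg N h) z.1 z.2) (X, W) =
      Phi K X W := by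
  obtain ⟨E, hE⟩ : ∃ E : ℝ → V d, E = fun σ => Eul (sg (ee 0) k) (gc X W σ) (gd X W σ) := ⟨_, rfl⟩
  have hEc : Continuous E := by
    rw [hE]
    exact eul_cont _ _ (Cs_open _ _) (sg_fld (ee 0) k hk) X W dk
  have hEp : ∀ σ, E (σ + Real.pi) = -E σ := by
    intro σ
    rw [hE]
    simp only
    rw [gc_pi, gd_pi]
    exact Eul_even (sg (ee 0) k) (fun x i j => sg_even (ee 0) k ok x i j) _ _
  obtain ⟨a, ha⟩ : ∃ a : V d, a = (1 / 2 : ℝ) • ∫ σ in (0 : ℝ)..(2 * Real.pi), Real.cos σ • E σ := ⟨_, rfl⟩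
  obtain ⟨b, hb⟩ : ∃ b : V d, b = (1 / 2 : ℝ) • ∫ σ in (0 : ℝ)..(2 * Real.pi), Real.sin σ • E σ := ⟨_, rfl⟩
  have hcE : Continuous fun σ => Real.cos σ • E σ := by fun_prop
  have hsE : Continuous fun σ => Real.sin σ • E σ := by fun_prop
  have ha' : ∀ i, fderiv ℝ (fun z : V d × V d => (1 / 4) * Phi (sg (ee 0) k) z.1 z.2) (X, W) (ee i, 0) =
      a i := by
    intro i
    rw [der_Phi _ _ (Cs_open _ _) (sg_fld (ee 0) k hk) X W dk, ha, Pi.smul_apply, int_apply _ hcE,
      smul_eq_mul]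
    congr 1
    refine intervalIntegral.integral_congr fun σ _ => ?_
    simp only [hE]
    unfold gc
    rw [smul_zero, add_zero, dotProduct_smul, dot_ee]
    rfl
  have hb' : ∀ i, fderiv ℝ (fun z : V d × V d => (1 / 4) * Phi (sg (ee 0) k) z.1 z.2) (X, W) (0, ee i) =
      b i := by
    intro i
    rw [der_Phi _ _ (Cs_open _ _) (sg_fld (ee 0) k hk) X W dk, hb, Pi.smul_apply, int_apply _ hsE,
      smul_eq_mul]
    congr 1
    refine intervalIntegral.integral_congr fun σ _ => ?_
    simp only [hE]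
    unfold gc
    rw [smul_zero, zero_add, dotProduct_smul, dot_ee]
    rfl
  have h1 : br (fun z => (1 / 4) * Phi (sg (ee 0) k) z.1 z.2) (fun z => (1 / 4) * Phi (sg N h) z.1 z.2)
      (X, W) = (1 / 2) * ∫ s in (0 : ℝ)..(2 * Real.pi),
        Eul (sg N h) (gc X W s) (gd X W s) ⬝ᵥ gc (-b) a s := by
    rw [← der_Phi _ _ (Cs_open _ _) (sg_fld N h hh) X W dh, lin]
    unfold br
    refine Finset.sum_congr rfl fun i _ => ?_
    rw [ha' i, hb' i, Pi.neg_apply]
    ring
  rw [h1, ← hK X W hXW, ← intervalIntegral.integral_const_mul]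
  refine intervalIntegral.integral_congr fun s _ => ?_
  by_cases hact : Act h (gc X W s)
  · obtain ⟨ς, hς⟩ : ∃ ς : ℝ, ς = Real.sign (gc X W s ⬝ᵥ N) := ⟨_, rfl⟩
    have hJ : gc (-b) a s = (1 / 2 : ℝ) • ∫ σ in (0 : ℝ)..(2 * Real.pi), Real.sin (s - σ) • E σ := by
      have h2 : ∀ σ, Real.sin (s - σ) • E σ =
          Real.sin s • (Real.cos σ • E σ) - Real.cos s • (Real.sin σ • E σ) := by
        intro σ
        rw [Real.sin_sub, sub_smul, smul_smul, smul_smul]
      have hc1 : Continuous fun σ => Real.sin s • (Real.cos σ • E σ) := by fun_prop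
      have hc2 : Continuous fun σ => Real.cos s • (Real.sin σ • E σ) := by fun_prop
      have h3 := intervalIntegral.integral_sub
        (hc1.intervalIntegrable (μ := MeasureTheory.volume) 0 (2 * Real.pi))
        (hc2.intervalIntegrable (μ := MeasureTheory.volume) 0 (2 * Real.pi))
      rw [intervalIntegral.integral_smul, intervalIntegral.integral_smul] at h3
      simp only [h2]
      rw [h3, ha, hb]
      unfold gc
      module
    have hg : Continuous fun σ => Real.sin (s - σ) • E σ := by fun_prop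
    have hper := per_int (fun σ => Real.sin (s - σ) • E σ) hg (fun σ => by
      rw [hEp, show s - (σ + Real.pi) = s - σ - Real.pi by ring, Real.sin_sub_pi, neg_smul, smul_neg,
        neg_neg]) s
    rw [hper, smul_smul] at hJ
    have hJ' : gc (-b) a s = ∫ σ in (s - Real.pi)..s, Real.sin (s - σ) • E σ := by
      rw [hJ]
      norm_num
    have hY : Yf k X W s = (1 / 2 : ℝ) • (ς • gc (-b) a s) := by
      unfold Yf
      congr 1
      rw [hJ', ← intervalIntegral.integral_smul]
      refine intervalIntegral.integral_congr_ae ?_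
      have hne : ∀ᵐ σ : ℝ, σ ≠ s := by
        have : (MeasureTheory.volume : MeasureTheory.Measure ℝ) {s} = 0 := Real.volume_singleton
        exact MeasureTheory.compl_mem_ae_iff.2 this
      filter_upwards [hne] with σ hσs hσ
      rw [Set.uIoc_of_le (by linarith [Real.pi_pos])] at hσ
      have hσ2 : σ < s := lt_of_le_of_ne hσ.2 hσs
      have hsin : 0 < Real.sin (s - σ) := Real.sin_pos_of_pos_of_lt_pi (by linarith)
        (by linarith [hσ.1])
      rw [smul_comm ς]
      congr 1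
      have hEs : E σ = Real.sign (gc X W σ 0) • Eul k (gc X W σ) (gd X W σ) := by
        rw [hE]
        simp only
        rw [Eul_sg (ee 0) k _ _ (dk σ), dot_ee]
      rw [hEs]
      by_cases hak : Act k (gc X W σ)
      · have h3 := Sep s σ hsin hact hak
        have h4 : gc X W σ 0 ≠ 0 := by
          have h5 := (dk σ).2
          simp only at h5
          rw [dot_ee] at h5
          rcases h5 with h6 | h6
          · exact h6
          · exact absurd hak h6
        rw [hς, ← h3, smul_smul]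
        rcases Real.sign_apply_eq_of_ne_zero _ h4 with h5 | h5
        · rw [h5]; norm_num
        · rw [h5]; norm_num
      · rw [Eul_of_not_act k _ _ hak, smul_zero, smul_zero]
    rw [hY, Eul_sg N h _ _ (dh s), ← hς, smul_dotProduct, dotProduct_smul, dotProduct_smul,
      smul_eq_mul, smul_eq_mul]
  · rw [Eul_sg N h _ _ (dh s), Eul_of_not_act h _ _ hact, smul_zero, zero_dotProduct, zero_dotProduct,
      mul_zero]

end Pool.Agent.Work.MP_659252_gt.QR
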