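import Pool.Agent.Work.MP_659252_gt.QR.D.PhiD

/-!
# `Phi` only depends on the plane and the orientation, up to the determinant.  Size: M.

PROOF.  `Dom_equi`: `gc (l X) (m W + n X) s = (l cos s + n sin s) X + m sin s W`, and `(l cos s + n sin s, m sin s) = r (cos σ, sin σ)` with `r > 0` (`l, m > 0`, so it
is not `(0, 0)`), so it is `r gc X W σ ∈ C` (`cone`).
Let `c = gc X W s`, `c' = gd X W s`, `κ s = bil (K c) c' c'`.  For a variation of `(X, W)` with `δc = a c + e c'` (`a, e` functions of `s`) one has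
`δc' = a' c + a c' + e' c' - e c` and `δκ = bil (dT K c δc) c' c' + 2 bil (K c) c' δc' = e κ' + 2 (a + e') κ`, because `dT K c c = 0` (`dT_self`), `bil (K c) c' c = 0` and
`κ' = bil (dT K c c') c' c'`.  So `δκ = (e κ)' + (2 a + e') κ`.
(1) `(X, W) ↦ (l X, l W)`: directly `κ ↦ l² κ` (`hom`).
(2) `(X, W + u X)`, derivative in `u`: `δc = sin s X = sin s cos s c - sin² s c'`, `2 a + e' = 0`: the derivative of `u ↦ Phi K X (W + u X)` is `∫ (e κ)' = 0` (periodic; derivative under
the integral sign, or `Phi_deriv` with `(A, B) = (0, X)`): constant.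
(3) `(X, e^u W)`: `δc = sin s W_u = sin² s c + sin s cos s c'`, `2 a + e' = 1`: `d/du Phi = Phi`, so `Phi K X (e^u W) = e^u Phi K X W`.
(It is also possible to compute with `Phi_deriv`: `Phi_deriv` with `(0, X)`: `Eul ⬝ (sin s X)`, `Eul ⬝ c = κ`, `Eul ⬝ c' = -κ'/2`, as in `Yf_perp`.)
Then `(l X, m W + n X) = (l X, l (W₁))`, `W₁ = (m/l) W + (n/l) X`: `l² Phi K X W₁ = l² (m/l) Phi K X W`.
-/

namespace Pool.Agent.Work.MP_659252_gt.QR

open scoped ContDiff Topology
open Pool.Agent.Work.MP_659252_gt.Z (V Ten val Tan InT IsZoll IsMetric IsGeodesic)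

variable {d : ℕ}

theorem Dom_equi (C : Set (V d)) (hc : ∀ (c : ℝ) (x : V d), 0 < c → x ∈ C → c • x ∈ C) (X W : V d)
    (h : (X, W) ∈ Dom C) (l m n : ℝ) (hl : 0 < l) (hm : 0 < m) : (l • X, m • W + n • X) ∈ Dom C := by
  intro s
  show gc (l • X) (m • W + n • X) s ∈ C
  set z : ℂ := ⟨l * Real.cos s + n * Real.sin s, m * Real.sin s⟩ with hz
  have hz0 : z ≠ 0 := by
    intro h0
    have h1 : l * Real.cos s + n * Real.sin s = 0 := congrArg Complex.re h0
    have h2 : m * Real.sin s = 0 := congrArg Complex.im h0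
    have h3 : Real.sin s = 0 := by
      rcases mul_eq_zero.1 h2 with h | h
      · exact absurd h hm.ne'
      · exact h
    rw [h3, mul_zero, add_zero] at h1
    have h4 : Real.cos s = 0 := by
      rcases mul_eq_zero.1 h1 with h | h
      · exact absurd h hl.ne'
      · exact h
    have h5 := Real.sin_sq_add_cos_sq s
    rw [h3, h4] at h5
    norm_num at h5
  have hr : 0 < ‖z‖ := norm_pos_iff.2 hz0
  have e1 : ‖z‖ * Real.cos z.arg = l * Real.cos s + n * Real.sin s := Complex.norm_mul_cos_arg z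
  have e2 : ‖z‖ * Real.sin z.arg = m * Real.sin s := Complex.norm_mul_sin_arg z
  have e3 : gc (l • X) (m • W + n • X) s = ‖z‖ • gc X W z.arg := by
    funext i
    simp only [gc, Pi.add_apply, Pi.smul_apply, smul_eq_mul]
    linear_combination (-X i) * e1 - W i * e2
  rw [e3]
  exact hc _ _ hr (h z.arg)

private theorem eq_gc (X W : V d) : Continuous (gc X W) :=
  continuous_iff_continuousAt.2 fun s => (hasDerivAt_gc X W s).continuousAt

private theorem eq_gd (X W : V d) : Continuous (gd X W) :=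
  continuous_iff_continuousAt.2 fun s => (hasDerivAt_gd X W s).continuousAt

private theorem eq_cdot {a b : ℝ → V d} (ha : Continuous a) (hb : Continuous b) :
    Continuous fun s => a s ⬝ᵥ b s := by
  have h1 : ∀ i, Continuous fun s => a s i := fun i => continuous_pi_iff.1 ha i
  have h2 : ∀ i, Continuous fun s => b s i := fun i => continuous_pi_iff.1 hb i
  simp only [dotProduct]
  exact continuous_finsetSum _ fun i _ => (h1 i).mul (h2 i)

private theorem eq_cont {K : Ten d} {C : Set (V d)} (hC : IsOpen C) (hK : FldOn K C) {X W : V d}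
    (h : (X, W) ∈ Dom C) (A B : V d) :
    Continuous fun s => Eul K (gc X W s) (gd X W s) ⬝ᵥ gc A B s := by
  have h1 : Continuous fun s => Eul K (gc X W s) (gd X W s) := by
    have h2 := (Eul_smooth K C hC hK).continuousOn
    have h3 : Continuous fun s => (gc X W s, gd X W s) := (eq_gc X W).prodMk (eq_gd X W)
    have h4 : ∀ s, (gc X W s, gd X W s) ∈ C ×ˢ (Set.univ : Set (V d)) := fun s => ⟨h s, trivial⟩
    have h5 := h2.comp_continuous h3 h4
    exact h5
  exact eq_cdot h1 (eq_gc A B)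

private theorem eq_tan {K : Ten d} {C : Set (V d)} (hC : IsOpen C) (hK : FldOn K C) {x : V d}
    (hx : x ∈ C) (v w : V d) : bil (dT K x v) x w = -bil (K x) v w := by
  have h1 : HasDerivAt (fun r : ℝ => x + r • v) v 0 := by
    have := ((hasDerivAt_id (0 : ℝ)).smul_const v).const_add x
    simpa using this
  have h0 : x + (0 : ℝ) • v = x := by rw [zero_smul, add_zero]
  have hd : ∀ i j, DifferentiableAt ℝ (fun y => K y i j) (x + (0 : ℝ) • v) := by
    rw [h0]
    exact fun i j => diff_of_smooth K C hC hK.smooth x hx i j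
  have h2 := hasDerivAt_bil K (fun r : ℝ => x + r • v) (fun r : ℝ => x + r • v) (fun _ => w) v v 0 0 hd h1 h1
    (hasDerivAt_const 0 w)
  have h5 : (fun r : ℝ => bil (K (x + r • v)) (x + r • v) w) = fun _ => 0 := funext fun r => hK.tan _ _
  rw [h5] at h2
  have h6 := h2.unique (hasDerivAt_const 0 0)
  have h7 : bil (K x) x 0 = 0 := by simp [bil]
  simp only [zero_smul, add_zero] at h6
  rw [h7] at h6
  linarith

private theorem eq_kap {K : Ten d} {C : Set (V d)} (hC : IsOpen C) (hK : FldOn K C) {X W : V d}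
    (h : (X, W) ∈ Dom C) (s : ℝ) :
    HasDerivAt (fun s => bil (K (gc X W s)) (gd X W s) (gd X W s))
      (-2 * (Eul K (gc X W s) (gd X W s) ⬝ᵥ gd X W s)) s := by
  have h1 := hasDerivAt_bil K (gc X W) (gd X W) (gd X W) (gd X W s) (-gc X W s) (-gc X W s) s
    (fun i j => diff_of_smooth K C hC hK.smooth _ (h s) i j) (hasDerivAt_gc X W s)
    (hasDerivAt_gd X W s) (hasDerivAt_gd X W s)
  refine h1.congr_deriv ?_
  rw [Eul_vel, bil_neg_left, bil_neg_right, hK.tan, bil_comm (hK.symm _) (gd X W s) (gc X W s), hK.tan]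
  ring

private theorem eq_eul {K : Ten d} {C : Set (V d)} (hC : IsOpen C) (hK : FldOn K C) {X W : V d}
    (h : (X, W) ∈ Dom C) (s : ℝ) :
    Eul K (gc X W s) (gd X W s) ⬝ᵥ gc X W s = bil (K (gc X W s)) (gd X W s) (gd X W s) := by
  rw [Eul_dot, dT_self K C hC hK.smooth hK.hom _ (h s), eq_tan hC hK (h s)]
  simp [bil]

private theorem eq_int1 {K : Ten d} {C : Set (V d)} (hC : IsOpen C) (hK : FldOn K C) {X W : V d}
    (h : (X, W) ∈ Dom C) :
    ∫ s in (0 : ℝ)..(2 * Real.pi), Eul K (gc X W s) (gd X W s) ⬝ᵥ gc 0 X s = 0 := by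
  have h1 : ∀ s : ℝ, HasDerivAt
      (fun s => 1 / 2 * (Real.sin s * Real.sin s) * bil (K (gc X W s)) (gd X W s) (gd X W s))
      (Eul K (gc X W s) (gd X W s) ⬝ᵥ gc 0 X s) s := by
    intro s
    have h2 := ((((Real.hasDerivAt_sin s).mul (Real.hasDerivAt_sin s)).const_mul (1 / 2 : ℝ))).mul
      (eq_kap hC hK h s)
    refine h2.congr_deriv ?_
    have h3 : gc 0 X s = (Real.sin s * Real.cos s) • gc X W s - (Real.sin s * Real.sin s) • gd X W s := by
      funext i
      simp only [gc, gd, Pi.add_apply, Pi.sub_apply, Pi.smul_apply, Pi.zero_apply, smul_eq_mul]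
      linear_combination (-(Real.sin s * X i)) * Real.sin_sq_add_cos_sq s
    rw [h3, dotProduct_sub, dotProduct_smul, dotProduct_smul, eq_eul hC hK h s]
    simp only [smul_eq_mul, Pi.mul_apply]
    ring
  rw [intervalIntegral.integral_eq_sub_of_hasDerivAt (fun s _ => h1 s)
    ((eq_cont hC hK h 0 X).intervalIntegrable _ _)]
  simp

private theorem eq_int2 {K : Ten d} {C : Set (V d)} (hC : IsOpen C) (hK : FldOn K C) {X W : V d}
    (h : (X, W) ∈ Dom C) :
    ∫ s in (0 : ℝ)..(2 * Real.pi), Eul K (gc X W s) (gd X W s) ⬝ᵥ gc 0 W s = 1 / 2 * Phi K X W := by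
  have hκ : Continuous fun s => bil (K (gc X W s)) (gd X W s) (gd X W s) :=
    continuous_iff_continuousAt.2 fun s => (eq_kap hC hK h s).continuousAt
  have h1 : ∀ s : ℝ, HasDerivAt
      (fun s => -(1 / 2) * (Real.sin s * Real.cos s) * bil (K (gc X W s)) (gd X W s) (gd X W s))
      (Eul K (gc X W s) (gd X W s) ⬝ᵥ gc 0 W s -
        1 / 2 * bil (K (gc X W s)) (gd X W s) (gd X W s)) s := by
    intro s
    have h2 := ((((Real.hasDerivAt_sin s).mul (Real.hasDerivAt_cos s)).const_mul (-(1 / 2) : ℝ))).mul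
      (eq_kap hC hK h s)
    refine h2.congr_deriv ?_
    have h3 : gc 0 W s = (Real.sin s * Real.sin s) • gc X W s + (Real.sin s * Real.cos s) • gd X W s := by
      funext i
      simp only [gc, gd, Pi.add_apply, Pi.sub_apply, Pi.smul_apply, Pi.zero_apply, smul_eq_mul]
      linear_combination (-(Real.sin s * W i)) * Real.sin_sq_add_cos_sq s
    rw [h3, dotProduct_add, dotProduct_smul, dotProduct_smul, eq_eul hC hK h s]
    simp only [smul_eq_mul, Pi.mul_apply]
    linear_combination (-(1 / 2) * bil (K (gc X W s)) (gd X W s) (gd X W s)) * Real.sin_sq_add_cos_sq s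
  have h4 := intervalIntegral.integral_eq_sub_of_hasDerivAt (a := 0) (b := 2 * Real.pi) (fun s _ => h1 s)
    (((eq_cont hC hK h 0 W).sub (hκ.const_mul (1 / 2))).intervalIntegrable _ _)
  rw [intervalIntegral.integral_sub ((eq_cont hC hK h 0 W).intervalIntegrable _ _)
    ((hκ.const_mul (1 / 2)).intervalIntegrable _ _), intervalIntegral.integral_const_mul] at h4
  have h5 : Phi K X W = ∫ s in (0 : ℝ)..(2 * Real.pi), bil (K (gc X W s)) (gd X W s) (gd X W s) := rfl
  rw [h5]
  simp only [Real.sin_two_pi, Real.sin_zero, zero_mul, mul_zero, sub_zero] at h4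
  linarith

private theorem eq_chain {K : Ten d} {C : Set (V d)} (hC : IsOpen C) (hK : FldOn K C) (X : V d)
    (w : ℝ → V d) (w' : V d) (u : ℝ) (hw : HasDerivAt w w' u) (h : (X, w u) ∈ Dom C) :
    HasDerivAt (fun u => Phi K X (w u))
      (2 * ∫ s in (0 : ℝ)..(2 * Real.pi), Eul K (gc X (w u) s) (gd X (w u) s) ⬝ᵥ gc 0 w' s) u := by
  have h1 : DifferentiableAt ℝ (fun z : V d × V d => Phi K z.1 z.2) (X, w u) :=
    ((Phi_smooth K C hC hK).contDiffAt ((Dom_open C hC).mem_nhds h)).differentiableAt (by simp)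
  have h2 : HasDerivAt (fun u => ((X, w u) : V d × V d)) ((0 : V d), w') u :=
    (hasDerivAt_const u X).prodMk hw
  have h3 : HasFDerivAt (fun z : V d × V d => Phi K z.1 z.2)
      (fderiv ℝ (fun z : V d × V d => Phi K z.1 z.2) (X, w u)) ((fun u => ((X, w u) : V d × V d)) u) :=
    h1.hasFDerivAt
  have h4 := HasFDerivAt.comp_hasDerivAt (f := fun u => ((X, w u) : V d × V d)) u h3 h2
  refine h4.congr_deriv ?_
  exact Phi_deriv K C hC hK (X, w u) h 0 w'

private theorem eq_shift {K : Ten d} {C : Set (V d)} (hC : IsOpen C)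
    (hc : ∀ (c : ℝ) (x : V d), 0 < c → x ∈ C → c • x ∈ C) (hK : FldOn K C) {X W : V d}
    (h : (X, W) ∈ Dom C) (u : ℝ) : Phi K X (W + u • X) = Phi K X W := by
  have hdom : ∀ u : ℝ, (X, W + u • X) ∈ Dom C := fun u => by
    have := Dom_equi C hc X W h 1 1 u one_pos one_pos
    simpa using this
  have h1 : ∀ u : ℝ, HasDerivAt (fun u : ℝ => Phi K X (W + u • X)) 0 u := by
    intro u
    have hw : HasDerivAt (fun u : ℝ => W + u • X) X u := by
      have := ((hasDerivAt_id u).smul_const X).const_add W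
      simpa using this
    have h2 := eq_chain hC hK X (fun u : ℝ => W + u • X) X u hw (hdom u)
    refine h2.congr_deriv ?_
    show 2 * ∫ s in (0 : ℝ)..(2 * Real.pi), Eul K (gc X (W + u • X) s) (gd X (W + u • X) s) ⬝ᵥ gc 0 X s = 0
    rw [eq_int1 hC hK (hdom u), mul_zero]
  have h2 := is_const_of_deriv_eq_zero (fun u => (h1 u).differentiableAt) (fun u => (h1 u).deriv) u 0
  simpa using h2

private theorem eq_exp {K : Ten d} {C : Set (V d)} (hC : IsOpen C)
    (hc : ∀ (c : ℝ) (x : V d), 0 < c → x ∈ C → c • x ∈ C) (hK : FldOn K C) {X W : V d}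
    (h : (X, W) ∈ Dom C) (m : ℝ) (hm : 0 < m) : Phi K X (m • W) = m * Phi K X W := by
  have hdom : ∀ u : ℝ, (X, Real.exp u • W) ∈ Dom C := fun u => by
    have := Dom_equi C hc X W h 1 (Real.exp u) 0 one_pos (Real.exp_pos u)
    simpa using this
  have h1 : ∀ u : ℝ, HasDerivAt (fun u : ℝ => Real.exp (-u) * Phi K X (Real.exp u • W)) 0 u := by
    intro u
    have hw : HasDerivAt (fun u : ℝ => Real.exp u • W) (Real.exp u • W) u :=
      (Real.hasDerivAt_exp u).smul_const W
    have h2 := eq_chain hC hK X (fun u : ℝ => Real.exp u • W) (Real.exp u • W) u hw (hdom u)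
    have h3 : HasDerivAt (fun u : ℝ => Phi K X (Real.exp u • W)) (Phi K X (Real.exp u • W)) u := by
      refine h2.congr_deriv ?_
      show 2 * ∫ s in (0 : ℝ)..(2 * Real.pi), Eul K (gc X (Real.exp u • W) s)
        (gd X (Real.exp u • W) s) ⬝ᵥ gc 0 (Real.exp u • W) s = _
      rw [eq_int2 hC hK (hdom u)]
      ring
    have h4 : HasDerivAt (fun u : ℝ => Real.exp (-u)) (-Real.exp (-u)) u := by
      have := (hasDerivAt_neg u).exp
      simpa using this
    refine (h4.mul h3).congr_deriv ?_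
    ring
  have h2 := is_const_of_deriv_eq_zero (fun u => (h1 u).differentiableAt) (fun u => (h1 u).deriv)
    (Real.log m) 0
  simp only [Real.exp_log hm, Real.exp_neg, neg_zero, Real.exp_zero, one_mul, one_smul] at h2
  rw [← h2, mul_inv_cancel_left₀ hm.ne']

theorem Phi_equi (K : Ten d) (C : Set (V d)) (hC : IsOpen C) (hc : ∀ (c : ℝ) (x : V d), 0 < c → x ∈ C → c • x ∈ C)
    (hK : FldOn K C) (X W : V d) (h : (X, W) ∈ Dom C) (l m n : ℝ) (hl : 0 < l) (hm : 0 < m) :
    Phi K (l • X) (m • W + n • X) = l * m * Phi K X W := by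
  have h1 : ∀ X W : V d, Phi K (l • X) (l • W) = l * l * Phi K X W := by
    intro X W
    unfold Phi
    rw [← intervalIntegral.integral_const_mul]
    congr 1
    funext s
    have e1 : gc (l • X) (l • W) s = l • gc X W s := by
      simp only [gc, smul_add]
      rw [smul_comm, smul_comm (Real.sin s)]
    have e2 : gd (l • X) (l • W) s = l • gd X W s := by
      simp only [gd, smul_sub]
      rw [smul_comm, smul_comm (Real.sin s)]
    rw [e1, e2, hK.hom l _ hl, bil_smul_left, bil_smul_right]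
    ring
  have hml : 0 < m / l := div_pos hm hl
  have hdom : (X, (m / l) • W) ∈ Dom C := by
    have := Dom_equi C hc X W h 1 (m / l) 0 one_pos hml
    simpa using this
  have e3 : m • W + n • X = l • ((m / l) • W + (n / l) • X) := by
    rw [smul_add, smul_smul, smul_smul, mul_div_cancel₀ _ hl.ne', mul_div_cancel₀ _ hl.ne']
  rw [e3, h1, eq_shift hC hc hK hdom, eq_exp hC hc hK h _ hml]
  field_simp

end Pool.Agent.Work.MP_659252_gt.QR
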