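import Pool.Agent.Work.MP_659252_gt.QR.D.Sep
import Pool.Agent.Work.MP_659252_gt.QR.D.Brg
import Pool.Agent.Work.MP_659252_gt.QR.D.BrE
import Pool.Agent.Work.MP_659252_gt.QR.D.Equi
import Pool.Agent.Work.MP_659252_gt.QR.A.SO

/-!
# The bracket formula near `(P, v)`.  Size: M.

PROOF.  `h = dir f w k b₁`, `k' = dir f w k b₂` are `Fld` and odd, `InT` (`L.zoll`; `b₁`, `b₂`, `b₁ + b₂` are `Bump lo hi`: a `Bump` of a smaller interval), so `thmA` gives `K`.  For `z` near `(P, v)`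
`sep` and `brg` give the formula at `on z`.  `z = (l (on z).1, m (on z).2 + n (on z).1)` with `l = √(z.1 ⬝ z.1) > 0`, `m > 0`, `n = z.2 ⬝ nz z.1`.  Let
`D = Dom (Cs N h) ∩ Dom (Cs (ee 0) k')`, an open set (`Dom_open`, `Cs_open`), invariant (`Dom_equi`, `Cs_cone`), on which `F`, `Q` are differentiable (`Phi_smooth`) and equivariant
(`Phi_equi` with `sg_fld`).  `br_equi` gives `br F Q z = l m br F Q (on z) = l m Phi K (on z) = Phi K z` (`Phi_equi` for `K`, cone `{0}ᶜ`; an orthonormal pair is in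
`Dom {0}ᶜ`).
-/

namespace Pool.Agent.Work.MP_659252_gt.QR

open scoped ContDiff Topology
open Pool.Agent.Work.MP_659252_gt.Z (V Ten val Tan InT IsZoll IsMetric IsGeodesic)

variable {d : ℕ}

private theorem nz_ne {x : V d} (h : nz x ⬝ᵥ nz x = 1) : x ≠ 0 := by
  rintro rfl
  simp [nz] at h

private theorem sqrt_pos' {x : V d} (hx : x ≠ 0) : 0 < √(x ⬝ᵥ x) := by
  apply Real.sqrt_pos.2
  have h1 := norm_sq_le_dot x
  have h2 : 0 < ‖x‖ := norm_pos_iff.2 hx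
  have h3 := pow_pos h2 2
  linarith

private theorem smul_nz {x : V d} (hx : x ≠ 0) : √(x ⬝ᵥ x) • nz x = x := by
  rw [nz, smul_smul, mul_inv_cancel₀ (sqrt_pos' hx).ne', one_smul]

private theorem gc_ne {X W : V d} (h : Orth X W) (s : ℝ) : gc X W s ≠ 0 := by
  obtain ⟨h1, h2, h3⟩ := h
  apply ne_zero_of_dot
  simp only [gc, add_dotProduct, dotProduct_add, smul_dotProduct, dotProduct_smul, smul_eq_mul]
  rw [h1, h2, h3, dotProduct_comm W X, h3]
  have := Real.cos_sq_add_sin_sq s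
  linear_combination this

theorem brx (hd : 1 ≤ d) (f w : V d → ℝ) (k : Ten d) (lo hi : ℝ) (P : V d) (L : Loc f w k lo hi P) (b₁ : ℝ → ℝ)
    (h₁ : Bump lo (f P) b₁) (v : V d) (hv0 : v 0 = 0) (hv : v ≠ 0) (hvn : gr f P ⬝ᵥ v = 0) :
    ∃ e > 0, lo < f P - e ∧ f P + e < hi ∧ ∀ b₂, Bump (f P - e) (f P + e) b₂ → ∃ K : Ten d, Fld K ∧
      ∀ᶠ z in 𝓝 (P, v), br (fun z => (1 / 4) * Phi (sg (ee 0) (dir f w k b₂)) z.1 z.2)
        (fun z => (1 / 4) * Phi (sg (NN P v) (dir f w k b₁)) z.1 z.2) z = Phi K z.1 z.2 := by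
  obtain ⟨e, he, hlo, hhi, hsep⟩ := sep f w k lo hi P L b₁ h₁ v hv0 hv hvn
  refine ⟨e, he, hlo, hhi, fun b₂ h₂ => ?_⟩
  have hb1 : Bump lo hi b₁ := by
    obtain ⟨h3, a, c, h4, h5, h6⟩ := h₁
    exact ⟨h3, a, c, h4, h5.trans L.lt_hi, h6⟩
  have hb2 : Bump lo hi b₂ := by
    obtain ⟨h3, a, c, h4, h5, h6⟩ := h₂
    exact ⟨h3, a, c, hlo.trans h4, h5.trans hhi, h6⟩
  have hh := dir_fld f w k lo hi P L b₁ hb1
  have hk := dir_fld f w k lo hi P L b₂ hb2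
  have oh := dir_odd f w k lo hi P L b₁ hb1
  have ok := dir_odd f w k lo hi P L b₂ hb2
  have hT := L.zoll b₁ hb1
  have kT := L.zoll b₂ hb2
  have hkT := L.zoll (fun s => b₁ s + b₂ s) (bump_add lo hi b₁ b₂ hb1 hb2)
  rw [dir_add f w k b₁ b₂ hb1.1 hb2.1] at hkT
  obtain ⟨K, hK, hKeq⟩ := thmA hd (dir f w k b₁) (dir f w k b₂) hh hk oh ok hT kT hkT
  refine ⟨K, hK, ?_⟩
  filter_upwards [hsep b₂ h₂] with z hz
  obtain ⟨hO, dh, dk, Sep⟩ := hz
  set N := NN P v with hN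
  set A := dir f w k b₁ with hA
  set B := dir f w k b₂ with hB
  -- the decomposition of `z`
  have hz1 : z.1 ≠ 0 := nz_ne hO.1
  set u : V d := z.2 - (z.2 ⬝ᵥ nz z.1) • nz z.1 with hu
  have hu0 : u ≠ 0 := nz_ne hO.2.1
  set l := √(z.1 ⬝ᵥ z.1) with hl
  set m := √(u ⬝ᵥ u) with hm
  set n := z.2 ⬝ᵥ nz z.1 with hn
  have hl0 : 0 < l := sqrt_pos' hz1
  have hm0 : 0 < m := sqrt_pos' hu0
  have ez1 : l • (on z).1 = z.1 := smul_nz hz1
  have ez2 : m • (on z).2 + n • (on z).1 = z.2 := by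
    have h3 : m • (on z).2 = u := smul_nz hu0
    have h4 : n • (on z).1 = (z.2 ⬝ᵥ nz z.1) • nz z.1 := rfl
    rw [h3, h4, hu]
    abel
  -- the invariant open set
  have hDA : IsOpen (Cs N A) := Cs_open N A
  have hDB : IsOpen (Cs (ee 0) B) := Cs_open (ee 0) B
  have fA := sg_fld N A hh
  have fB := sg_fld (ee 0) B hk
  have sA := Phi_smooth (sg N A) (Cs N A) hDA fA
  have sB := Phi_smooth (sg (ee 0) B) (Cs (ee 0) B) hDB fB
  have key := br_equi (Dom (Cs N A) ∩ Dom (Cs (ee 0) B))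
    ((Dom_open _ hDA).inter (Dom_open _ hDB))
    (fun z => (1 / 4) * Phi (sg (ee 0) B) z.1 z.2) (fun z => (1 / 4) * Phi (sg N A) z.1 z.2)
    (((sB.differentiableOn (by simp)).mono Set.inter_subset_right).const_mul _)
    (((sA.differentiableOn (by simp)).mono Set.inter_subset_left).const_mul _)
    l m n hl0 hm0
    (fun y hy => ⟨Dom_equi _ (fun c x hc hx => Cs_cone N A hh c x hc hx) y.1 y.2 hy.1 l m n hl0 hm0,
      Dom_equi _ (fun c x hc hx => Cs_cone (ee 0) B hk c x hc hx) y.1 y.2 hy.2 l m n hl0 hm0⟩)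
    (fun y hy => by
      show (1 / 4) * Phi (sg (ee 0) B) (l • y.1) (m • y.2 + n • y.1) =
        l * m * ((1 / 4) * Phi (sg (ee 0) B) y.1 y.2)
      rw [Phi_equi (sg (ee 0) B) (Cs (ee 0) B) hDB (fun c x hc hx => Cs_cone (ee 0) B hk c x hc hx) fB
        y.1 y.2 hy.2 l m n hl0 hm0]
      ring)
    (fun y hy => by
      show (1 / 4) * Phi (sg N A) (l • y.1) (m • y.2 + n • y.1) =
        l * m * ((1 / 4) * Phi (sg N A) y.1 y.2)
      rw [Phi_equi (sg N A) (Cs N A) hDA (fun c x hc hx => Cs_cone N A hh c x hc hx) fA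
        y.1 y.2 hy.1 l m n hl0 hm0]
      ring)
    (on z) ⟨dh, dk⟩
  rw [ez1, ez2] at key
  have h5 := brg A B hh hk oh ok N K hKeq (on z).1 (on z).2 hO dh dk Sep
  have h6 := Phi_equi K {0}ᶜ isOpen_compl_singleton
    (fun c x hc hx => smul_ne_zero hc.ne' hx) hK (on z).1 (on z).2 (fun s => gc_ne hO s) l m n hl0 hm0
  rw [ez1, ez2] at h6
  rw [h6, ← h5]
  exact key

end Pool.Agent.Work.MP_659252_gt.QR
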