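import Pool.Agent.Work.MP_659252_gt.QR.Bas

/-!
# Group D: auxiliary notions
-/

namespace Pool.Agent.Work.MP_659252_gt.QR

open scoped ContDiff Topology
open Pool.Agent.Work.MP_659252_gt.Z (V Ten val Tan InT IsZoll IsMetric IsGeodesic)

variable {d : ℕ}

/-- The pairs whose ellipse is contained in `C`. -/
def Dom (C : Set (V d)) : Set (V d × V d) := {z | ∀ s, gc z.1 z.2 s ∈ C}

/-- `x` is in the support of the field `h`. -/
def Act (h : Ten d) (x : V d) : Prop := ¬ ∀ᶠ y in 𝓝 x, h y = 0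

/-- The field `sign (x ⬝ N) h`. -/
noncomputable def sg (N : V d) (h : Ten d) : Ten d := fun x i j => Real.sign (x ⬝ᵥ N) * h x i j

/-- The cone on which `sg N h` is smooth if `h` is smooth away from `0`. -/
def Cs (N : V d) (h : Ten d) : Set (V d) := {x | x ≠ 0 ∧ (x ⬝ᵥ N ≠ 0 ∨ ¬ Act h x)}

/-- Normalisation. -/
noncomputable def nz (x : V d) : V d := (√(x ⬝ᵥ x))⁻¹ • x

/-- Gram-Schmidt. -/
noncomputable def on (z : V d × V d) : V d × V d := (nz z.1, nz (z.2 - (z.2 ⬝ᵥ nz z.1) • nz z.1))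

/-- The component of `v` orthogonal to `P`. -/
noncomputable def NN (P v : V d) : V d := v - ((v ⬝ᵥ P) / (P ⬝ᵥ P)) • P

/-- The even field of which `dir f w k b` is the odd version. -/
noncomputable def fld (f w : V d → ℝ) (k : Ten d) (b : ℝ → ℝ) : Ten d := fun x i j =>
  b (f x) * k x i j + deriv b (f x) * w x * (gr f x i * gr f x j)

end Pool.Agent.Work.MP_659252_gt.QR
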