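import Pool.Agent.Work.MP_659252_gt.QR.D.Defs

/-!
# The layered directions as fields.  Size: M.

Here `b` is a `Bump lo hi`, zero outside of `[a, c]`, `lo < a`, `c < hi`; so `deriv b` is zero outside of `[a, c]` too (`b = 0` on the open complement and
continuity of `deriv b`).
PROOF.  `gr_hom`: differentiate `f (c • y) = f y` at `y = x`: `fderiv f (c x) (c v) = fderiv f x v`.  `gr_rad`: differentiate `f ((1+r) x) = f x` at `r = 0`.
`fderiv f x v = gr f x ⬝ v` (linearity).
`dir_act`: if `f x ∉ [a, c]` and `x ≠ 0` then `f y ∉ [a, c]` for `y` near `x`, so `dir .. b y = 0` there.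
`dir_fld`: at `x` with `x 0 ≠ 0` the sign is locally constant and everything is smooth (`gr f` is smooth as derivative of a smooth function; the range
`f x` arbitrary, `b`, `deriv b` smooth on `ℝ`); if `x 0 = 0`, `x ≠ 0`: `f x < lo`, so `dir = 0` near `x` (`dir_act`).  `symm`, `hom` (`gr_hom`: `c² w (c⁻¹)² = w`), `tan`
(`bil (k x) x v = 0`, `gr f x ⬝ x = 0`; for `x = 0` trivial).
`dir_odd`: `f (-x) = f x`, `w (-x) = w x`, `k (-x) = k x`, `gr f (-x) = -gr f x`, `sign (-x 0) = -sign (x 0)`.  For `x = 0` both sides are `0` (`sign 0 = 0`).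
`dir_add`: `deriv (b₁ + b₂)`.  `sg_dir`: for `x 0 ≠ 0`: `sign² = 1`; for `x 0 = 0`, `x ≠ 0`: `b (f x) = deriv b (f x) = 0`.
-/

namespace Pool.Agent.Work.MP_659252_gt.QR

open scoped ContDiff Topology
open Pool.Agent.Work.MP_659252_gt.Z (V Ten val Tan InT IsZoll IsMetric IsGeodesic)

variable {d : ℕ}

private theorem diffAt {f : V d → ℝ} (fs : ContDiffOn ℝ ∞ f {0}ᶜ) {x : V d} (hx : x ≠ 0) :
    DifferentiableAt ℝ f x :=
  (fs.contDiffAt (isOpen_compl_singleton.mem_nhds hx)).differentiableAt (by simp)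

private theorem deriv_z {b : ℝ → ℝ} {a c : ℝ} (hz : ∀ s, s ∉ Set.Icc a c → b s = 0) {s : ℝ}
    (hs : s ∉ Set.Icc a c) : deriv b s = 0 := by
  have h1 : b =ᶠ[𝓝 s] fun _ => 0 := by
    filter_upwards [isClosed_Icc.isOpen_compl.mem_nhds hs] with t ht
    exact hz t ht
  rw [h1.deriv_eq, deriv_const]

theorem gr_hom (f : V d → ℝ) (fs : ContDiffOn ℝ ∞ f {0}ᶜ) (fh : ∀ (c : ℝ) (x : V d), c ≠ 0 → f (c • x) = f x)
    (c : ℝ) (hc : c ≠ 0) (x : V d) (hx : x ≠ 0) : gr f (c • x) = c⁻¹ • gr f x := by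
  have hcx : c • x ≠ 0 := smul_ne_zero hc hx
  have h1 : HasFDerivAt f (fderiv ℝ f (c • x)) (c • x) := (diffAt fs hcx).hasFDerivAt
  have h2 : HasFDerivAt (fun y : V d => c • y) (c • ContinuousLinearMap.id ℝ (V d)) x :=
    (hasFDerivAt_id x).const_smul c
  have h3 := h1.comp x h2
  have h4 : f ∘ (fun y : V d => c • y) = f := funext fun y => fh c y hc
  rw [h4] at h3
  funext i
  simp only [gr, Pi.smul_apply, smul_eq_mul]
  rw [h3.fderiv]
  simp only [ContinuousLinearMap.comp_apply, ContinuousLinearMap.smul_apply,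
    ContinuousLinearMap.id_apply, map_smul, smul_eq_mul]
  rw [← mul_assoc, inv_mul_cancel₀ hc, one_mul]

theorem gr_rad (f : V d → ℝ) (fs : ContDiffOn ℝ ∞ f {0}ᶜ) (fh : ∀ (c : ℝ) (x : V d), c ≠ 0 → f (c • x) = f x)
    (x : V d) (hx : x ≠ 0) : gr f x ⬝ᵥ x = 0 := by
  have h0 : ∀ v : V d, fderiv ℝ f x v = gr f x ⬝ᵥ v := by
    intro v
    have h1 : v = ∑ i, v i • (Pi.single i (1 : ℝ) : V d) := by
      funext j
      simp [Finset.sum_apply, Pi.single_apply]
    conv_lhs => rw [h1]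
    rw [map_sum]
    simp only [dotProduct, gr, map_smul, smul_eq_mul]
    exact Finset.sum_congr rfl fun i _ => mul_comm _ _
  rw [← h0]
  have h1 : HasFDerivAt f (fderiv ℝ f ((1 : ℝ) • x)) ((1 : ℝ) • x) := by
    rw [one_smul]
    exact (diffAt fs hx).hasFDerivAt
  have h2 : HasDerivAt (fun c : ℝ => c • x) x 1 := by
    have := (hasDerivAt_id (1 : ℝ)).smul_const x
    rw [one_smul] at this
    exact this
  have h3 := h1.comp_hasDerivAt (1 : ℝ) h2
  have h4 : (f ∘ fun c : ℝ => c • x) =ᶠ[𝓝 1] fun _ => f x := by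
    filter_upwards [isOpen_ne.mem_nhds (one_ne_zero : (1 : ℝ) ≠ 0)] with c hc
    exact fh c x hc
  have h5 := (h3.congr_of_eventuallyEq h4.symm).unique (hasDerivAt_const (1 : ℝ) (f x))
  rw [one_smul] at h5
  exact h5

theorem fderiv_eq_gr (f : V d → ℝ) (x v : V d) : fderiv ℝ f x v = gr f x ⬝ᵥ v := by
  have h1 : v = ∑ i, v i • (Pi.single i (1 : ℝ) : V d) := by
    funext j
    simp [Finset.sum_apply, Pi.single_apply]
  conv_lhs => rw [h1]
  rw [map_sum]
  simp only [dotProduct, gr, map_smul, smul_eq_mul]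
  exact Finset.sum_congr rfl fun i _ => mul_comm _ _

theorem dir_act (f w : V d → ℝ) (k : Ten d) (lo hi : ℝ) (P : V d) (L : Loc f w k lo hi P) (b : ℝ → ℝ) (a c : ℝ)
    (hb : ContDiff ℝ ∞ b) (hz : ∀ s, s ∉ Set.Icc a c → b s = 0) (x : V d) (hx : x ≠ 0)
    (hA : Act (dir f w k b) x) : f x ∈ Set.Icc a c := by
  by_contra hcon
  apply hA
  have hc : ContinuousAt f x := (diffAt L.fs hx).continuousAt
  filter_upwards [hc.eventually (isClosed_Icc.isOpen_compl.mem_nhds hcon)] with y hy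
  funext i j
  simp only [dir, hz _ hy, deriv_z hz hy, zero_mul, add_zero, mul_zero]
  rfl

private theorem dir_zero {f w : V d → ℝ} {k : Ten d} {b : ℝ → ℝ} {a c : ℝ}
    (hz : ∀ s, s ∉ Set.Icc a c → b s = 0) {x : V d} (hx : f x ∉ Set.Icc a c) :
    dir f w k b x = 0 := by
  funext i j
  simp only [dir, hz _ hx, deriv_z hz hx, zero_mul, add_zero, mul_zero]
  rfl

private theorem neg_facts {f w : V d → ℝ} {k : Ten d} {lo hi : ℝ} {P : V d} (L : Loc f w k lo hi P)
    (x : V d) : f (-x) = f x ∧ w (-x) = w x ∧ k (-x) = k x := by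
  have e : -x = (-1 : ℝ) • x := by simp
  rw [e, L.fh (-1) x (by norm_num), L.wh (-1) x (by norm_num), L.ks.hom (-1) x (by norm_num)]
  norm_num

theorem dir_fld (f w : V d → ℝ) (k : Ten d) (lo hi : ℝ) (P : V d) (L : Loc f w k lo hi P) (b : ℝ → ℝ)
    (hb : Bump lo hi b) : Fld (dir f w k b) := by
  obtain ⟨hb, a, c, ha, hc, hz⟩ := hb
  have hdb : ContDiff ℝ ∞ (deriv b) := (contDiff_infty_iff_deriv.1 hb).2
  refine ⟨fun x hx => ?_, fun x i j => ?_, fun r x hr => ?_, fun x v => ?_⟩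
  · have hx0 : x ≠ 0 := hx
    refine ContDiffAt.contDiffWithinAt ?_
    have hnhds := isOpen_compl_singleton.mem_nhds hx
    by_cases hx1 : x 0 = 0
    · have h1 : f x ∉ Set.Icc a c := by
        intro h1
        have := L.feq x hx0 hx1
        linarith [h1.1]
      have h2 : dir f w k b =ᶠ[𝓝 x] fun _ => 0 := by
        by_contra h3
        exact h1 (dir_act f w k lo hi P L b a c hb hz x hx0 h3)
      exact ContDiffAt.congr_of_eventuallyEq contDiffAt_const h2
    · have hf : ContDiffAt ℝ ∞ f x := L.fs.contDiffAt hnhds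
      have hw : ContDiffAt ℝ ∞ w x := L.ws.contDiffAt hnhds
      have hk : ContDiffAt ℝ ∞ k x := L.ks.smooth.contDiffAt hnhds
      have hg : ∀ i, ContDiffAt ℝ ∞ (fun y => gr f y i) x := fun i =>
        (hf.fderiv_right (m := ∞) (by simp)).clm_apply contDiffAt_const
      have hs : ∀ᶠ y in 𝓝 x, Real.sign (y 0) = Real.sign (x 0) := by
        have hcont : ContinuousAt (fun y : V d => y 0) x := (continuous_apply 0).continuousAt
        rcases lt_or_gt_of_ne hx1 with h | h
        · filter_upwards [hcont.eventually_lt_const h] with y hy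
          rw [Real.sign_of_neg h, Real.sign_of_neg hy]
        · filter_upwards [hcont.eventually_const_lt h] with y hy
          rw [Real.sign_of_pos h, Real.sign_of_pos hy]
      refine contDiffAt_pi.2 fun i => contDiffAt_pi.2 fun j => ?_
      have h1 : (fun y => dir f w k b y i j) =ᶠ[𝓝 x] fun y => Real.sign (x 0) *
          (b (f y) * k y i j + deriv b (f y) * w y * (gr f y i * gr f y j)) := by
        filter_upwards [hs] with y hy
        simp only [dir, hy]
      refine ContDiffAt.congr_of_eventuallyEq ?_ h1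
      refine contDiffAt_const.mul (ContDiffAt.add ?_ ?_)
      · exact (hb.contDiffAt.comp x hf).mul (contDiffAt_pi.1 (contDiffAt_pi.1 hk i) j)
      · exact ((hdb.contDiffAt.comp x hf).mul hw).mul ((hg i).mul (hg j))
  · simp only [dir, L.ks.symm x i j]
    ring
  · by_cases hx : x = 0
    · rw [hx, smul_zero]
    · funext i j
      have h1 : Real.sign (r * x 0) = Real.sign (x 0) := by
        rcases lt_trichotomy (x 0) 0 with h | h | h
        · rw [Real.sign_of_neg h, Real.sign_of_neg (mul_neg_of_pos_of_neg hr h)]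
        · rw [h, mul_zero]
        · rw [Real.sign_of_pos h, Real.sign_of_pos (mul_pos hr h)]
      simp only [dir, L.fh r x hr.ne', L.wh r x hr.ne', L.ks.hom r x hr.ne',
        gr_hom f L.fs L.fh r hr.ne' x hx, Pi.smul_apply, smul_eq_mul]
      rw [h1]
      have := hr.ne'
      field_simp
  · by_cases hx : x = 0
    · subst hx
      simp [bil]
    · have h1 : bil (k x) x v = 0 := by
        rw [← val_eq]
        exact L.ks.tan x v
      have h2 : gr f x ⬝ᵥ x = 0 := gr_rad f L.fs L.fh x hx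
      have h3 : bil (dir f w k b x) x v = Real.sign (x 0) * (b (f x) * bil (k x) x v +
          deriv b (f x) * w x * ((gr f x ⬝ᵥ x) * (gr f x ⬝ᵥ v))) := by
        simp only [bil, dir, dotProduct, Finset.sum_mul_sum]
        simp only [Finset.mul_sum, ← Finset.sum_add_distrib]
        exact Finset.sum_congr rfl fun i _ => Finset.sum_congr rfl fun j _ => by ring
      rw [h3, h1, h2]
      ring

theorem dir_odd (f w : V d → ℝ) (k : Ten d) (lo hi : ℝ) (P : V d) (L : Loc f w k lo hi P) (b : ℝ → ℝ)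
    (hb : Bump lo hi b) : OddF (dir f w k b) := by
  intro x i j
  by_cases hx : x = 0
  · subst hx
    simp [dir, Real.sign_zero]
  · obtain ⟨e1, e2, e3⟩ := neg_facts L x
    have h1 : gr f (-x) = -gr f x := by
      have := gr_hom f L.fs L.fh (-1) (by norm_num) x hx
      rw [neg_one_smul] at this
      rw [this]
      funext i
      norm_num
    simp only [dir, e1, e2, e3, h1, Pi.neg_apply, Real.sign_neg]
    ring

theorem dir_add (f w : V d → ℝ) (k : Ten d) (b₁ b₂ : ℝ → ℝ) (h₁ : ContDiff ℝ ∞ b₁) (h₂ : ContDiff ℝ ∞ b₂) :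
    dir f w k (fun s => b₁ s + b₂ s) = fun x i j => dir f w k b₁ x i j + dir f w k b₂ x i j := by
  have d1 : Differentiable ℝ b₁ := h₁.differentiable (by simp)
  have d2 : Differentiable ℝ b₂ := h₂.differentiable (by simp)
  funext x i j
  simp only [dir]
  rw [deriv_fun_add (d1 _) (d2 _)]
  ring

theorem bump_add (lo hi : ℝ) (b₁ b₂ : ℝ → ℝ) (h₁ : Bump lo hi b₁) (h₂ : Bump lo hi b₂) :
    Bump lo hi (fun s => b₁ s + b₂ s) := by
  obtain ⟨h₁, a₁, c₁, ha₁, hc₁, hz₁⟩ := h₁
  obtain ⟨h₂, a₂, c₂, ha₂, hc₂, hz₂⟩ := h₂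
  refine ⟨h₁.add h₂, min a₁ a₂, max c₁ c₂, lt_min ha₁ ha₂, max_lt hc₁ hc₂, fun s hs => ?_⟩
  have e1 : s ∉ Set.Icc a₁ c₁ := fun h =>
    hs ⟨(min_le_left _ _).trans h.1, h.2.trans (le_max_left _ _)⟩
  have e2 : s ∉ Set.Icc a₂ c₂ := fun h =>
    hs ⟨(min_le_right _ _).trans h.1, h.2.trans (le_max_right _ _)⟩
  show b₁ s + b₂ s = 0
  rw [hz₁ s e1, hz₂ s e2, add_zero]

theorem sg_dir (f w : V d → ℝ) (k : Ten d) (lo hi : ℝ) (P : V d) (L : Loc f w k lo hi P) (b : ℝ → ℝ)
    (hb : Bump lo hi b) (x : V d) (hx : x ≠ 0) : sg (ee 0) (dir f w k b) x = fld f w k b x := by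
  obtain ⟨-, a, c, ha, hc, hz⟩ := hb
  funext i j
  simp only [sg, dot_ee, dir, fld]
  by_cases hx1 : x 0 = 0
  · have h1 : f x ∉ Set.Icc a c := by
      intro h1
      have := L.feq x hx hx1
      linarith [h1.1]
    rw [hz _ h1, deriv_z hz h1]
    ring
  · rcases Real.sign_apply_eq_of_ne_zero _ hx1 with h | h
    · rw [h]
      ring
    · rw [h]
      ring

end Pool.Agent.Work.MP_659252_gt.QR
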