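import Pool.Agent.Work.MP_659252_gt.QR.D.Defs
import Pool.Agent.Work.MP_659252_gt.QR.A.EulA
import Pool.Agent.Work.MP_659252_gt.QR.A.Yp
import Pool.Agent.Work.MP_e214ac_gt.R.PInt

/-!
# The integral `Phi` as a function of the pair `(X, W)`.  Size: M.

PROOF.  `Dom_open`: if `gc X W s ∈ C` for all `s` (a compact curve), then `gc X' W' s ∈ C` for `(X', W')` near `(X, W)` and all `s ∈ [0, 2π]` (tube lemma /
`isCompact_Icc` and continuity of `(z, s) ↦ gc z.1 z.2 s`), hence for all `s` by periodicity.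
`Phi_smooth`: parametric integral over `[0, 2π]` of a function which is smooth on a neighbourhood of `Dom C × [0, 2π]` (see
`E214.contDiffOn_param_integral` in `Pool.Agent.Work.MP_e214ac_gt.R.PInt`: integrals over `[0, 1]`; rescale `s = 2π u`; that file may be imported).
`Phi_deriv`: the derivative under the integral sign at `z` in the direction `(A, B)` is, with `c = gc z.1 z.2 s`, `c' = gd`, `U = gc A B s`, `U' = gd A B s`:
`bil (dT K c U) c' c' + 2 bil (K c) c' U'` (symmetry).  `(bil (K c) c' U)' = (mul (K c) c')' ⬝ U + bil (K c) c' U'` and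
`(mul (K c) c')' = mul (dT K c c') c' + mul (K c) (-c) = mul (dT K c c') c'` (`tan`, symmetry).  By periodicity
`∫ 2 bil (K c) c' U' = -2 ∫ bil (dT K c c') U c'`, and `bil (dT K c U) c' c' - 2 bil (dT K c c') U c' = 2 Eul K c c' ⬝ U` (`Eul_dot`).
-/

namespace Pool.Agent.Work.MP_659252_gt.QR

open scoped ContDiff Topology
open Pool.Agent.Work.MP_659252_gt.Z (V Ten val Tan InT IsZoll IsMetric IsGeodesic)

variable {d : ℕ}

private theorem gc_per (X W : V d) : Function.Periodic (gc X W) (2 * Real.pi) := fun s => by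
  simp only [gc, Real.cos_add_two_pi, Real.sin_add_two_pi]

private theorem gd_per (X W : V d) : Function.Periodic (gd X W) (2 * Real.pi) := fun s => by
  simp only [gd, Real.cos_add_two_pi, Real.sin_add_two_pi]

private theorem gc_cont3 : Continuous fun p : (V d × V d) × ℝ => gc p.1.1 p.1.2 p.2 := by
  simp only [gc]
  fun_prop

theorem Dom_open (C : Set (V d)) (hC : IsOpen C) : IsOpen (Dom C) := by
  rw [isOpen_iff_mem_nhds]
  intro z₀ hz
  have h1 : ∀ᶠ z in 𝓝 z₀, ∀ s ∈ Set.Icc 0 (2 * Real.pi), gc z.1 z.2 s ∈ C := by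
    refine (isCompact_Icc (a := (0 : ℝ)) (b := 2 * Real.pi)).eventually_forall_of_forall_eventually
      (P := fun (z : V d × V d) (s : ℝ) => gc z.1 z.2 s ∈ C) fun s _ => ?_
    have h2 : (fun p : (V d × V d) × ℝ => gc p.1.1 p.1.2 p.2) ⁻¹' C ∈ 𝓝 (z₀, s) :=
      (hC.preimage gc_cont3).mem_nhds (hz s)
    exact h2
  filter_upwards [h1] with z hz' s
  obtain ⟨s', hs', he⟩ := (gc_per z.1 z.2).exists_mem_Ico₀ Real.two_pi_pos s
  rw [he]
  exact hz' s' ⟨hs'.1, hs'.2.le⟩

/-- the integrand -/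
private noncomputable def FF (K : Ten d) (p : (V d × V d) × ℝ) : ℝ :=
  (2 * Real.pi) * bil (K (gc p.1.1 p.1.2 (2 * Real.pi * p.2))) (gd p.1.1 p.1.2 (2 * Real.pi * p.2))
    (gd p.1.1 p.1.2 (2 * Real.pi * p.2))

private def VV (C : Set (V d)) : Set ((V d × V d) × ℝ) :=
  {p | gc p.1.1 p.1.2 (2 * Real.pi * p.2) ∈ C}

private theorem gc_smooth3 :
    ContDiff ℝ ∞ fun p : (V d × V d) × ℝ => gc p.1.1 p.1.2 (2 * Real.pi * p.2) := by
  simp only [gc]
  fun_prop

private theorem gd_smooth3 :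
    ContDiff ℝ ∞ fun p : (V d × V d) × ℝ => gd p.1.1 p.1.2 (2 * Real.pi * p.2) := by
  simp only [gd]
  fun_prop

private theorem VV_open (C : Set (V d)) (hC : IsOpen C) : IsOpen (VV C) :=
  hC.preimage gc_smooth3.continuous

private theorem FF_smooth (K : Ten d) (C : Set (V d)) (hK : FldOn K C) :
    ContDiffOn ℝ ∞ (FF K) (VV C) := by
  have h1 : ContDiffOn ℝ ∞ (fun p : (V d × V d) × ℝ => K (gc p.1.1 p.1.2 (2 * Real.pi * p.2)))
      (VV C) := hK.smooth.comp gc_smooth3.contDiffOn fun p hp => hp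
  have h2 := gd_smooth3 (d := d)
  have h3 : FF K = fun p => (2 * Real.pi) * ∑ i, ∑ j,
      K (gc p.1.1 p.1.2 (2 * Real.pi * p.2)) i j *
        (gd p.1.1 p.1.2 (2 * Real.pi * p.2) i * gd p.1.1 p.1.2 (2 * Real.pi * p.2) j) := rfl
  rw [h3]
  refine contDiffOn_const.mul (ContDiffOn.sum fun i _ => ContDiffOn.sum fun j _ => ?_)
  refine ContDiffOn.mul ?_ (((contDiff_pi.1 h2 i).mul (contDiff_pi.1 h2 j)).contDiffOn)
  exact contDiffOn_pi.1 (contDiffOn_pi.1 h1 i) j

private theorem FF_int (K : Ten d) (z : V d × V d) :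
    ∫ t in (0 : ℝ)..1, FF K (z, t) = Phi K z.1 z.2 := by
  have h1 := intervalIntegral.integral_comp_mul_left (a := 0) (b := 1)
    (fun s => bil (K (gc z.1 z.2 s)) (gd z.1 z.2 s) (gd z.1 z.2 s)) (c := 2 * Real.pi)
    Real.two_pi_pos.ne'
  rw [mul_zero, mul_one, smul_eq_mul] at h1
  have h2 : ∀ t : ℝ, FF K (z, t) = (2 * Real.pi) * bil (K (gc z.1 z.2 (2 * Real.pi * t)))
      (gd z.1 z.2 (2 * Real.pi * t)) (gd z.1 z.2 (2 * Real.pi * t)) := fun t => rfl
  simp only [h2]
  rw [intervalIntegral.integral_const_mul, h1, ← mul_assoc, mul_inv_cancel₀ Real.two_pi_pos.ne',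
    one_mul]
  rfl

theorem Phi_smooth (K : Ten d) (C : Set (V d)) (hC : IsOpen C) (hK : FldOn K C) :
    ContDiffOn ℝ ∞ (fun z : V d × V d => Phi K z.1 z.2) (Dom C) := by
  have h1 := (E214.contDiffOn_param_integral (Dom C) (Dom_open C hC) (VV C) (VV_open C hC)
    (fun z hz t _ => hz _) (FF K) (FF_smooth K C hK)).1
  refine h1.congr fun z _ => (FF_int K z).symm

private theorem cont_dT (K : Ten d) (C : Set (V d)) (hC : IsOpen C) (hK : ContDiffOn ℝ ∞ K C)
    {c v : ℝ → V d} (hc : Continuous c) (hv : Continuous v) (hcC : ∀ s, c s ∈ C)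
    (i j : Fin (d + 1)) : Continuous fun s => dT K (c s) (v s) i j := by
  have h1 : ContDiffOn ℝ ∞ (fun y => K y i j) C := contDiffOn_pi.1 (contDiffOn_pi.1 hK i) j
  have h2 : ContinuousOn (fderiv ℝ (fun y => K y i j)) C :=
    h1.continuousOn_fderiv_of_isOpen hC (by simp)
  exact (h2.comp_continuous hc hcC).clm_apply hv

private theorem cont_bil {M : ℝ → Mat d} {v w : ℝ → V d}
    (hM : ∀ i j, Continuous fun s => M s i j) (hv : Continuous v) (hw : Continuous w) :
    Continuous fun s => bil (M s) (v s) (w s) := by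
  simp only [bil]
  refine continuous_finsetSum _ fun i _ => continuous_finsetSum _ fun j _ => ?_
  exact (hM i j).mul (((continuous_apply i).comp hv).mul ((continuous_apply j).comp hw))

theorem Phi_deriv (K : Ten d) (C : Set (V d)) (hC : IsOpen C) (hK : FldOn K C) (z : V d × V d) (hz : z ∈ Dom C)
    (A B : V d) :
    fderiv ℝ (fun z : V d × V d => Phi K z.1 z.2) z (A, B) =
      2 * ∫ s in (0 : ℝ)..(2 * Real.pi), Eul K (gc z.1 z.2 s) (gd z.1 z.2 s) ⬝ᵥ gc A B s := by
  have h1 := (E214.contDiffOn_param_integral (Dom C) (Dom_open C hC) (VV C) (VV_open C hC)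
    (fun z hz t _ => hz _) (FF K) (FF_smooth K C hK)).2 z hz (A, B)
  have h2 : (fun x => ∫ t in (0 : ℝ)..1, FF K (x, t)) = fun z : V d × V d => Phi K z.1 z.2 :=
    funext fun z => FF_int K z
  rw [h2] at h1
  rw [h1]
  have hdiff : ∀ s, ∀ i j, DifferentiableAt ℝ (fun y => K y i j) (gc z.1 z.2 s) := fun s i j =>
    diff_of_smooth K C hC hK.smooth _ (hz s) i j
  -- the derivative of the integrand
  set hh : ℝ → ℝ := fun s => bil (dT K (gc z.1 z.2 s) (gc A B s)) (gd z.1 z.2 s) (gd z.1 z.2 s) +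
    bil (K (gc z.1 z.2 s)) (gd A B s) (gd z.1 z.2 s) +
    bil (K (gc z.1 z.2 s)) (gd z.1 z.2 s) (gd A B s) with hhd
  have h3 : ∀ t : ℝ, fderiv ℝ (FF K) (z, t) ((A, B), 0) = (2 * Real.pi) * hh (2 * Real.pi * t) := by
    intro t
    have hmem : ((z, t) : (V d × V d) × ℝ) ∈ VV C := hz _
    have hd : HasFDerivAt (FF K) (fderiv ℝ (FF K) (z, t)) (z, t) :=
      (((FF_smooth K C hK).contDiffAt ((VV_open C hC).mem_nhds hmem)).differentiableAt
        (by simp)).hasFDerivAt
    have hl : HasDerivAt (fun r : ℝ => ((z, t) : (V d × V d) × ℝ) + r • (((A, B), 0) : (V d × V d) × ℝ))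
        ((A, B), 0) 0 := by
      have := ((hasDerivAt_id (0 : ℝ)).smul_const (((A, B), 0) : (V d × V d) × ℝ)).const_add (z, t)
      rw [one_smul] at this
      exact this
    have hd' : HasFDerivAt (FF K) (fderiv ℝ (FF K) (z, t))
        (((z, t) : (V d × V d) × ℝ) + (0 : ℝ) • (((A, B), 0) : (V d × V d) × ℝ)) := by
      rw [zero_smul, add_zero]
      exact hd
    have h4 := hd'.comp_hasDerivAt (0 : ℝ) hl
    -- the same derivative, computed
    set s := 2 * Real.pi * t with hs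
    have e1 : ∀ r : ℝ, gc (z.1 + r • A) (z.2 + r • B) s = gc z.1 z.2 s + r • gc A B s := by
      intro r
      simp only [gc, smul_add, smul_smul]
      rw [mul_comm r, mul_comm r]
      abel
    have e2 : ∀ r : ℝ, gd (z.1 + r • A) (z.2 + r • B) s = gd z.1 z.2 s + r • gd A B s := by
      intro r
      simp only [gd, smul_add, smul_sub, smul_smul]
      rw [mul_comm r, mul_comm r]
      abel
    have hc1 : HasDerivAt (fun r : ℝ => gc z.1 z.2 s + r • gc A B s) (gc A B s) 0 := by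
      have := ((hasDerivAt_id (0 : ℝ)).smul_const (gc A B s)).const_add (gc z.1 z.2 s)
      rw [one_smul] at this
      exact this
    have hd1 : HasDerivAt (fun r : ℝ => gd z.1 z.2 s + r • gd A B s) (gd A B s) 0 := by
      have := ((hasDerivAt_id (0 : ℝ)).smul_const (gd A B s)).const_add (gd z.1 z.2 s)
      rw [one_smul] at this
      exact this
    have h5 := hasDerivAt_bil K (fun r : ℝ => gc z.1 z.2 s + r • gc A B s)
      (fun r : ℝ => gd z.1 z.2 s + r • gd A B s) (fun r : ℝ => gd z.1 z.2 s + r • gd A B s)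
      (gc A B s) (gd A B s) (gd A B s) 0 (fun i j => by simpa using hdiff s i j) hc1 hd1 hd1
    have h6 := h5.const_mul (2 * Real.pi)
    have h7 : (FF K ∘ fun r : ℝ => ((z, t) : (V d × V d) × ℝ) + r • (((A, B), 0) : (V d × V d) × ℝ)) =
        fun r : ℝ => (2 * Real.pi) * bil (K (gc z.1 z.2 s + r • gc A B s))
          (gd z.1 z.2 s + r • gd A B s) (gd z.1 z.2 s + r • gd A B s) := by
      funext r
      have e3 : ((z, t) : (V d × V d) × ℝ) + r • (((A, B), 0) : (V d × V d) × ℝ) =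
          ((z.1 + r • A, z.2 + r • B), t) := by
        ext1
        · rfl
        · simp
      show FF K (((z, t) : (V d × V d) × ℝ) + r • (((A, B), 0) : (V d × V d) × ℝ)) = _
      rw [e3]
      show (2 * Real.pi) * bil (K (gc (z.1 + r • A) (z.2 + r • B) s))
        (gd (z.1 + r • A) (z.2 + r • B) s) (gd (z.1 + r • A) (z.2 + r • B) s) = _
      rw [e1, e2]
    rw [h7] at h4
    have h8 := h4.unique h6
    rw [h8]
    simp only [zero_smul, add_zero, hhd]
  have h4 : ∫ t in (0 : ℝ)..1, fderiv ℝ (FF K) (z, t) ((A, B), 0) =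
      ∫ s in (0 : ℝ)..(2 * Real.pi), hh s := by
    simp only [h3]
    have h5 := intervalIntegral.integral_comp_mul_left (a := 0) (b := 1) hh (c := 2 * Real.pi)
      Real.two_pi_pos.ne'
    rw [mul_zero, mul_one, smul_eq_mul] at h5
    rw [intervalIntegral.integral_const_mul, h5, ← mul_assoc, mul_inv_cancel₀ Real.two_pi_pos.ne',
      one_mul]
  rw [h4]
  -- symmetry of the derivative
  have hsymm : ∀ x v : V d, ∀ i j, dT K x v i j = dT K x v j i := by
    intro x v i j
    have : (fun y => K y i j) = fun y => K y j i := funext fun y => hK.symm y i j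
    simp only [dT, this]
  -- continuity
  have cgc : ∀ X W : V d, Continuous (gc X W) := fun X W =>
    continuous_iff_continuousAt.2 fun s => (hasDerivAt_gc X W s).continuousAt
  have cgd : ∀ X W : V d, Continuous (gd X W) := fun X W =>
    continuous_iff_continuousAt.2 fun s => (hasDerivAt_gd X W s).continuousAt
  have cK : ∀ i j, Continuous fun s => K (gc z.1 z.2 s) i j := by
    intro i j
    have h5 : ContDiffOn ℝ ∞ (fun y => K y i j) C := contDiffOn_pi.1 (contDiffOn_pi.1 hK.smooth i) j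
    exact h5.continuousOn.comp_continuous (cgc _ _) hz
  -- the total derivative
  set ψ : ℝ → ℝ := fun s => bil (K (gc z.1 z.2 s)) (gd z.1 z.2 s) (gc A B s) with hψ
  have hψd : ∀ s, HasDerivAt ψ (bil (dT K (gc z.1 z.2 s) (gd z.1 z.2 s)) (gc A B s) (gd z.1 z.2 s) +
      bil (K (gc z.1 z.2 s)) (gd z.1 z.2 s) (gd A B s)) s := by
    intro s
    have h5 := hasDerivAt_bil K (gc z.1 z.2) (gd z.1 z.2) (gc A B) (gd z.1 z.2 s) (-gc z.1 z.2 s)
      (gd A B s) s (hdiff s) (hasDerivAt_gc _ _ s) (hasDerivAt_gd _ _ s) (hasDerivAt_gc _ _ s)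
    refine h5.congr_deriv ?_
    rw [bil_neg_left, hK.tan, neg_zero, add_zero,
      bil_comm (hsymm (gc z.1 z.2 s) (gd z.1 z.2 s)) (gd z.1 z.2 s) (gc A B s)]
  have cψ' : Continuous fun s => bil (dT K (gc z.1 z.2 s) (gd z.1 z.2 s)) (gc A B s) (gd z.1 z.2 s) +
      bil (K (gc z.1 z.2 s)) (gd z.1 z.2 s) (gd A B s) := by
    refine (cont_bil (fun i j => ?_) (cgc _ _) (cgd _ _)).add (cont_bil cK (cgd _ _) (cgd _ _))
    exact cont_dT K C hC hK.smooth (cgc _ _) (cgd _ _) hz i j
  have h5 : ∫ s in (0 : ℝ)..(2 * Real.pi),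
      (bil (dT K (gc z.1 z.2 s) (gd z.1 z.2 s)) (gc A B s) (gd z.1 z.2 s) +
      bil (K (gc z.1 z.2 s)) (gd z.1 z.2 s) (gd A B s)) = 0 := by
    rw [intervalIntegral.integral_eq_sub_of_hasDerivAt (fun s _ => hψd s)
      (cψ'.intervalIntegrable _ _)]
    have e1 := gc_per z.1 z.2 0
    have e2 := gd_per z.1 z.2 0
    have e3 := gc_per A B 0
    rw [zero_add] at e1 e2 e3
    simp only [hψ, e1, e2, e3, sub_self]
  have h6 : ∀ s, hh s = 2 * (Eul K (gc z.1 z.2 s) (gd z.1 z.2 s) ⬝ᵥ gc A B s) +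
      2 * (bil (dT K (gc z.1 z.2 s) (gd z.1 z.2 s)) (gc A B s) (gd z.1 z.2 s) +
      bil (K (gc z.1 z.2 s)) (gd z.1 z.2 s) (gd A B s)) := by
    intro s
    rw [Eul_dot, hhd]
    simp only
    rw [bil_comm (hK.symm (gc z.1 z.2 s)) (gd A B s) (gd z.1 z.2 s)]
    ring
  have cE : Continuous fun s => Eul K (gc z.1 z.2 s) (gd z.1 z.2 s) ⬝ᵥ gc A B s := by
    simp only [Eul_dot]
    refine (continuous_const.mul (cont_bil (fun i j => ?_) (cgd _ _) (cgd _ _))).sub
      (cont_bil (fun i j => ?_) (cgc _ _) (cgd _ _))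
    · exact cont_dT K C hC hK.smooth (cgc _ _) (cgc _ _) hz i j
    · exact cont_dT K C hC hK.smooth (cgc _ _) (cgd _ _) hz i j
  have i1 : IntervalIntegrable (fun s => 2 * (Eul K (gc z.1 z.2 s) (gd z.1 z.2 s) ⬝ᵥ gc A B s))
      MeasureTheory.volume 0 (2 * Real.pi) := (continuous_const.mul cE).intervalIntegrable _ _
  have i2 : IntervalIntegrable (fun s =>
      2 * (bil (dT K (gc z.1 z.2 s) (gd z.1 z.2 s)) (gc A B s) (gd z.1 z.2 s) +
      bil (K (gc z.1 z.2 s)) (gd z.1 z.2 s) (gd A B s)))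
      MeasureTheory.volume 0 (2 * Real.pi) := (continuous_const.mul cψ').intervalIntegrable _ _
  simp only [h6]
  rw [intervalIntegral.integral_add i1 i2, intervalIntegral.integral_const_mul,
    intervalIntegral.integral_const_mul, h5, mul_zero, add_zero]

end Pool.Agent.Work.MP_659252_gt.QR
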